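import Mathlib

/-! Mollification and convergence in the mean square. -/

open MeasureTheory Filter Topology
open scoped ContDiff ENNReal Convolution

noncomputable section

namespace Pool.Agent.Lib.MP_6c3a95_mp

section Cv

variable {X : Type*} [MeasurableSpace X] {μ : Measure X}

/-- convergence in the mean square -/
structure Cv (μ : Measure X) (a : ℕ → X → ℝ) (b : X → ℝ) : Prop where
  mem : ∀ n, MemLp (a n) 2 μ
  lim : MemLp b 2 μ
  tend : Tendsto (fun n => eLpNorm (a n - b) 2 μ) atTop (𝓝 0)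

lemma Cv.const {b : X → ℝ} (hb : MemLp b 2 μ) : Cv μ (fun _ => b) b :=
  ⟨fun _ => hb, hb, by simp⟩

/-- the trilinear integral -/
def Tri (μ : Measure X) (c a b : X → ℝ) : ℝ := ∫ x, c x * a x * b x ∂μ

lemma Tri_int {c a b : X → ℝ} (hc : MemLp c ⊤ μ) (ha : MemLp a 2 μ) (hb : MemLp b 2 μ) :
    Integrable (fun x => c x * a x * b x) μ :=
  (ha.mul' (r := 2) hc).integrable_mul hb

lemma Cv.mul {a : ℕ → X → ℝ} {b c : X → ℝ} (h : Cv μ a b) (hc : MemLp c ⊤ μ) :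
    Cv μ (fun n x => c x * a n x) (fun x => c x * b x) := by
  refine ⟨fun n => (h.mem n).mul' hc, h.lim.mul' hc, ?_⟩
  have h1 := ENNReal.Tendsto.const_mul (a := eLpNorm c ⊤ μ) h.tend (Or.inr hc.2.ne)
  rw [mul_zero] at h1
  refine tendsto_of_tendsto_of_tendsto_of_le_of_le tendsto_const_nhds h1 (fun _ => zero_le)
    fun n => ?_
  have e : ((fun x => c x * a n x) - fun x => c x * b x) = c • (a n - b) := by
    ext x; simp [mul_sub]
  simp only [e]
  exact eLpNorm_smul_le_eLpNorm_top_mul_eLpNorm 2 ((h.mem n).sub h.lim).1 c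

lemma inner_toLp {a b : X → ℝ} (ha : MemLp a 2 μ) (hb : MemLp b 2 μ) :
    inner ℝ (ha.toLp a) (hb.toLp b) = ∫ x, a x * b x ∂μ := by
  rw [L2.inner_def]
  refine integral_congr_ae ?_
  filter_upwards [ha.coeFn_toLp, hb.coeFn_toLp] with x h1 h2
  rw [h1, h2]; simp [mul_comm]

lemma Cv.integral_mul {a a' : ℕ → X → ℝ} {b b' : X → ℝ} (h : Cv μ a b) (h' : Cv μ a' b') :
    Tendsto (fun n => ∫ x, a n x * a' n x ∂μ) atTop (𝓝 (∫ x, b x * b' x ∂μ)) := by
  have h1 := (Lp.tendsto_Lp_iff_tendsto_eLpNorm'' a h.mem b h.lim).2 h.tend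
  have h2 := (Lp.tendsto_Lp_iff_tendsto_eLpNorm'' a' h'.mem b' h'.lim).2 h'.tend
  have h3 := h1.inner (𝕜 := ℝ) h2
  simpa only [inner_toLp] using h3

lemma Cv.tri {a a' : ℕ → X → ℝ} {b b' c : X → ℝ} (h : Cv μ a b) (h' : Cv μ a' b')
    (hc : MemLp c ⊤ μ) :
    Tendsto (fun n => Tri μ c (a n) (a' n)) atTop (𝓝 (Tri μ c b b')) :=
  (h.mul hc).integral_mul h'

lemma Cv.of_ae {a : ℕ → X → ℝ} {b : X → ℝ} (hb : MemLp b 2 μ)
    (ha : ∀ n, AEStronglyMeasurable (a n) μ) (hle : ∀ n, eLpNorm (a n) 2 μ ≤ eLpNorm b 2 μ)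
    (ht : ∀ᵐ x ∂μ, Tendsto (fun n => a n x) atTop (𝓝 (b x))) : Cv μ a b := by
  have hm : ∀ n, MemLp (a n) 2 μ := fun n => ⟨ha n, (hle n).trans_lt hb.2⟩
  refine ⟨hm, hb, (Lp.tendsto_Lp_iff_tendsto_eLpNorm'' a hm b hb).1 ?_⟩
  set A := fun n => (hm n).toLp (a n)
  set B := hb.toLp b
  have hA : ∀ n, ‖A n‖ ≤ ‖B‖ := fun n => by
    simp only [A, B, Lp.norm_toLp]
    exact ENNReal.toReal_mono hb.2.ne (hle n)
  have hF := Lp.eLpNorm_lim_le_liminf_eLpNorm (p := 2) (f := fun n => a n + b)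
    (fun n => (ha n).add hb.1) (b + b) (by
      filter_upwards [ht] with x hx
      exact hx.add_const _)
  have e1 : ∀ n, eLpNorm (a n + b) 2 μ = ENNReal.ofReal ‖A n + B‖ := fun n => by
    rw [← MemLp.toLp_add, Lp.norm_toLp, ENNReal.ofReal_toReal ((hm n).add hb).2.ne]
  have e2 : eLpNorm (b + b) 2 μ = ENNReal.ofReal (2 * ‖B‖) := by
    have : 2 * ‖B‖ = ‖B + B‖ := by rw [← two_smul ℝ B, norm_smul]; simp
    rw [this, ← MemLp.toLp_add, Lp.norm_toLp, ENNReal.ofReal_toReal (hb.add hb).2.ne]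
  simp only [e1, e2] at hF
  have hlow : ∀ c, c < 2 * ‖B‖ → ∀ᶠ n in atTop, c < ‖A n + B‖ := by
    intro c hc
    rcases lt_or_ge c 0 with h0 | h0
    · exact Eventually.of_forall fun n => h0.trans_le (norm_nonneg _)
    · have := eventually_lt_of_lt_liminf
        (((ENNReal.ofReal_lt_ofReal_iff_of_nonneg h0).2 hc).trans_le hF)
      filter_upwards [this] with n hn
      exact (ENNReal.ofReal_lt_ofReal_iff_of_nonneg h0).1 hn
  have hs : Tendsto (fun n => ‖A n + B‖) atTop (𝓝 (2 * ‖B‖)) := by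
    refine tendsto_order.2 ⟨hlow, fun c hc => Eventually.of_forall fun n => ?_⟩
    have := norm_add_le (A n) B
    linarith [hA n]
  rw [tendsto_iff_norm_sub_tendsto_zero]
  have h2 : Tendsto (fun n => √(4 * ‖B‖ ^ 2 - ‖A n + B‖ ^ 2)) atTop (𝓝 0) := by
    have := ((hs.pow 2).const_sub (4 * ‖B‖ ^ 2)).sqrt
    rwa [show 4 * ‖B‖ ^ 2 - (2 * ‖B‖) ^ 2 = 0 by ring, Real.sqrt_zero] at this
  refine squeeze_zero (fun _ => norm_nonneg _) (fun n => Real.le_sqrt_of_sq_le ?_) h2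
  have := parallelogram_law_with_norm ℝ (A n) B
  have := pow_le_pow_left₀ (norm_nonneg _) (hA n) 2
  linarith

lemma jensen_w {w x : X → ℝ≥0∞}
    (hw : AEMeasurable w μ) (hx : AEMeasurable x μ) {σ : ℝ} (hσ : 1 ≤ σ) :
    (∫⁻ a, w a * x a ∂μ) ^ σ ≤ (∫⁻ a, w a ∂μ) ^ (σ - 1) * ∫⁻ a, w a * x a ^ σ ∂μ := by
  have h0 : 0 < σ := by linarith
  have h1 : 0 ≤ 1 / σ := by positivity
  have h2 : 0 ≤ 1 - 1 / σ := by
    rw [sub_nonneg, div_le_one h0]; exact hσ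
  have key := ENNReal.lintegral_mul_norm_pow_le (μ := μ) (f := fun a => w a * x a ^ σ) (g := w)
    (hw.mul (hx.pow_const σ)) hw h1 h2 (by ring)
  have h3 : ∀ a, (w a * x a ^ σ) ^ (1 / σ) * w a ^ (1 - 1 / σ) = w a * x a := by
    intro a
    rw [ENNReal.mul_rpow_of_nonneg _ _ h1, ← ENNReal.rpow_mul, mul_one_div_cancel h0.ne',
      ENNReal.rpow_one, mul_right_comm, ← ENNReal.rpow_add_of_nonneg _ _ h1 h2]
    simp
  simp only [h3] at key
  refine (ENNReal.rpow_le_rpow key h0.le).trans (le_of_eq ?_)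
  rw [ENNReal.mul_rpow_of_nonneg _ _ h0.le, ← ENNReal.rpow_mul, ← ENNReal.rpow_mul,
    one_div_mul_cancel h0.ne', ENNReal.rpow_one, mul_comm]
  congr 2
  field_simp

end Cv

variable {X : Type*} [NormedAddCommGroup X] [NormedSpace ℝ X] [FiniteDimensional ℝ X]
  [MeasurableSpace X] [BorelSpace X] {μ : Measure X} [μ.IsAddHaarMeasure]

/-- convolution -/
def mol (μ : Measure X) (f ρ : X → ℝ) (x : X) : ℝ := ∫ t, f t * ρ (x - t) ∂μ

lemma mol_eq (f ρ : X → ℝ) : mol μ f ρ = f ⋆[ContinuousLinearMap.lsmul ℝ ℝ, μ] ρ := by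
  ext x; rw [convolution_lsmul]; rfl

lemma young {k : X → ℝ} (hk : Continuous k) {f : X → ℝ} (hf : AEStronglyMeasurable f μ) :
    eLpNorm (mol μ f k) 2 μ ≤ (∫⁻ t, ‖k t‖ₑ ∂μ) * eLpNorm f 2 μ := by
  set A := ∫⁻ t, ‖k t‖ₑ ∂μ with hA
  have hfm : AEMeasurable (fun y => ‖f y‖ₑ) μ := hf.enorm
  have h1 : ∀ x, ‖mol μ f k x‖ₑ ^ (2 : ℝ) ≤
      A ^ ((2 : ℝ) - 1) * ∫⁻ y, ‖k (x - y)‖ₑ * ‖f y‖ₑ ^ (2 : ℝ) ∂μ := by
    intro x
    have hkm : AEMeasurable (fun y => ‖k (x - y)‖ₑ) μ :=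
      (Continuous.enorm (by fun_prop)).measurable.aemeasurable
    have := jensen_w hkm hfm (σ := 2) (by norm_num)
    rw [lintegral_sub_left_eq_self (fun t => ‖k t‖ₑ) x] at this
    refine le_trans (ENNReal.rpow_le_rpow ?_ (by norm_num)) this
    refine (enorm_integral_le_lintegral_enorm _).trans (le_of_eq ?_)
    simp only [enorm_mul, mul_comm]
  have h2 : ∫⁻ x, ‖mol μ f k x‖ₑ ^ (2 : ℝ) ∂μ ≤ A ^ (2 : ℝ) * ∫⁻ y, ‖f y‖ₑ ^ (2 : ℝ) ∂μ := by
    have hm : AEMeasurable (Function.uncurry fun x y : X => ‖k (x - y)‖ₑ * ‖f y‖ₑ ^ (2 : ℝ))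
        (μ.prod μ) := by
      refine AEMeasurable.mul ?_ ((hfm.pow_const (2 : ℝ)).comp_snd)
      exact (Continuous.enorm (f := fun z : X × X => k (z.1 - z.2))
        (by fun_prop)).measurable.aemeasurable
    calc ∫⁻ x, ‖mol μ f k x‖ₑ ^ (2 : ℝ) ∂μ
        ≤ ∫⁻ x, A ^ ((2 : ℝ) - 1) * ∫⁻ y, ‖k (x - y)‖ₑ * ‖f y‖ₑ ^ (2 : ℝ) ∂μ ∂μ :=
          lintegral_mono h1
      _ = A ^ ((2 : ℝ) - 1) * ∫⁻ x, ∫⁻ y, ‖k (x - y)‖ₑ * ‖f y‖ₑ ^ (2 : ℝ) ∂μ ∂μ := by
        rw [lintegral_const_mul'' _ hm.lintegral_prod_right]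
      _ = A ^ ((2 : ℝ) - 1) * ∫⁻ y, ∫⁻ x, ‖k (x - y)‖ₑ * ‖f y‖ₑ ^ (2 : ℝ) ∂μ ∂μ := by
        rw [lintegral_lintegral_swap hm]
      _ = A ^ ((2 : ℝ) - 1) * ∫⁻ y, A * ‖f y‖ₑ ^ (2 : ℝ) ∂μ := by
        congr 2; ext y
        rw [lintegral_mul_const _ (Continuous.enorm (by fun_prop)).measurable,
          lintegral_sub_right_eq_self (fun t => ‖k t‖ₑ) y]
      _ = A ^ (2 : ℝ) * ∫⁻ y, ‖f y‖ₑ ^ (2 : ℝ) ∂μ := by
        rw [lintegral_const_mul'' _ (hfm.pow_const (2 : ℝ)), ← mul_assoc]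
        congr 1
        conv_rhs => rw [show (2 : ℝ) = (2 - 1) + 1 by ring,
          ENNReal.rpow_add_of_nonneg _ _ (by norm_num) zero_le_one, ENNReal.rpow_one]
  rw [eLpNorm_eq_lintegral_rpow_enorm_toReal (by norm_num) (by norm_num),
    eLpNorm_eq_lintegral_rpow_enorm_toReal (by norm_num) (by norm_num)]
  simp only [ENNReal.toReal_ofNat]
  refine (ENNReal.rpow_le_rpow h2 (by positivity)).trans (le_of_eq ?_)
  rw [ENNReal.mul_rpow_of_nonneg _ _ (by positivity), ← ENNReal.rpow_mul,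
    mul_one_div_cancel (by norm_num), ENNReal.rpow_one]

/-- test functions -/
structure Test (φ : X → ℝ) : Prop where
  smooth : ContDiff ℝ ∞ φ
  cpt : HasCompactSupport φ

/-- directional derivative -/
def dd (φ : X → ℝ) (w : X) (x : X) : ℝ := fderiv ℝ φ x w

lemma Test.dd {φ : X → ℝ} (h : Test φ) (w : X) : Test (dd φ w) :=
  ⟨(h.smooth.fderiv_right (m := ∞) (by simp)).clm_apply contDiff_const,
    h.cpt.fderiv_apply ℝ w⟩

lemma Test.refl {φ : X → ℝ} (h : Test φ) (z : X) : Test (fun t => φ (z - t)) :=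
  ⟨h.smooth.comp (contDiff_const.sub contDiff_id), h.cpt.comp_homeomorph (Homeomorph.subLeft z)⟩

lemma Test.dd_refl {φ : X → ℝ} (h : Test φ) (z w t : X) :
    fderiv ℝ (fun t => φ (z - t)) t w = - MP_6c3a95_mp.dd φ w (z - t) := by
  have h2 : HasFDerivAt (fun t => φ (z - t))
      ((fderiv ℝ φ (z - t)).comp (-ContinuousLinearMap.id ℝ X)) t :=
    (h.smooth.differentiable (by simp) (z - t)).hasFDerivAt.comp t ((hasFDerivAt_id t).const_sub z)
  rw [h2.fderiv]; simp [MP_6c3a95_mp.dd]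

lemma Test.dd_comm {φ : X → ℝ} (h : Test φ) (v w : X) :
    MP_6c3a95_mp.dd (MP_6c3a95_mp.dd φ v) w = MP_6c3a95_mp.dd (MP_6c3a95_mp.dd φ w) v := by
  ext x
  have hs := (h.smooth.contDiffAt (x := x)).isSymmSndFDerivAt (by simp; norm_cast)
  have hd : DifferentiableAt ℝ (fderiv ℝ φ) x :=
    (h.smooth.fderiv_right (m := 1) (by norm_cast)).differentiable (by simp) x
  have e : ∀ v w, MP_6c3a95_mp.dd (MP_6c3a95_mp.dd φ v) w x = fderiv ℝ (fderiv ℝ φ) x w v := by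
    intro v w
    unfold MP_6c3a95_mp.dd
    rw [fderiv_clm_apply hd (differentiableAt_const v)]
    simp
  rw [e, e, hs.eq]

lemma Test.memLp {φ : X → ℝ} (h : Test φ) : MemLp φ 2 μ :=
  h.smooth.continuous.memLp_of_hasCompactSupport h.cpt

lemma mol_smooth {f ρ : X → ℝ} (hf : MemLp f 2 μ) (hρ : Test ρ) : ContDiff ℝ ∞ (mol μ f ρ) := by
  rw [mol_eq]
  exact hρ.cpt.contDiff_convolution_right _ (hf.locallyIntegrable (by norm_num)) hρ.smooth

lemma mol_memLp {f ρ : X → ℝ} (hf : MemLp f 2 μ) (hρ : Test ρ) : MemLp (mol μ f ρ) 2 μ := by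
  refine ⟨(mol_smooth hf hρ).continuous.aestronglyMeasurable,
    (young hρ.smooth.continuous hf.1).trans_lt (ENNReal.mul_lt_top ?_ hf.2)⟩
  exact (hρ.smooth.continuous.integrable_of_hasCompactSupport hρ.cpt).2

/-- derivative along a line -/
def LD (f f' : X → ℝ) (w : X) : Prop := ∀ x, HasDerivAt (fun t : ℝ => f (x + t • w)) (f' x) 0

lemma mol_LD {f ρ : X → ℝ} (hf : MemLp f 2 μ) (hρ : Test ρ) (w : X) :
    LD (mol μ f ρ) (mol μ f (dd ρ w)) w := by
  intro z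
  have hl := hf.locallyIntegrable (by norm_num)
  have hρ1 : ContDiff ℝ 1 ρ := hρ.smooth.of_le (by norm_cast)
  have h := (hρ.cpt.hasFDerivAt_convolution_right (ContinuousLinearMap.lsmul ℝ ℝ) hl hρ1 z).hasLineDerivAt w
  rw [convolution_precompR_apply _ hl (hρ.cpt.fderiv ℝ) (hρ1.continuous_fderiv (by simp))] at h
  rw [mol_eq, mol_eq]
  exact h

/-- the mollifiers -/
def bump (X : Type*) [NormedAddCommGroup X] (n : ℕ) : ContDiffBump (0 : X) :=
  ⟨1 / (2 * ((n : ℝ) + 1)), 1 / ((n : ℝ) + 1), by positivity, by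
    apply one_div_lt_one_div_of_lt <;> nlinarith [(Nat.cast_nonneg n : (0 : ℝ) ≤ n)]⟩

def rho (μ : Measure X) (n : ℕ) : X → ℝ := (bump X n).normed μ

lemma rho_test (n : ℕ) : Test (rho μ n) :=
  ⟨(bump X n).contDiff_normed, (bump X n).hasCompactSupport_normed⟩

lemma mol_cv {f : X → ℝ} (hf : MemLp f 2 μ) : Cv μ (fun n => mol μ f (rho μ n)) f := by
  refine Cv.of_ae hf (fun n => (mol_memLp hf (rho_test n)).1) (fun n => ?_) ?_
  · refine (young (rho_test n).smooth.continuous hf.1).trans (le_of_eq ?_)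
    have : ∫⁻ t, ‖rho μ n t‖ₑ ∂μ = 1 := by
      rw [← ofReal_integral_norm_eq_lintegral_enorm
        ((rho_test n).smooth.continuous.integrable_of_hasCompactSupport (rho_test n).cpt)]
      simp only [rho, Real.norm_of_nonneg ((bump X n).nonneg_normed _), (bump X n).integral_normed]
      simp
    rw [this, one_mul]
  · have hr : Tendsto (fun n => (bump X n).rOut) atTop (𝓝 0) :=
      tendsto_one_div_add_atTop_nhds_zero_nat
    have := ContDiffBump.ae_convolution_tendsto_right_of_locallyIntegrable (μ := μ) (K := 2) hr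
      (Eventually.of_forall fun n => by
        simp only [bump]; apply le_of_eq; field_simp) (hf.locallyIntegrable (by norm_num))
    filter_upwards [this] with x hx
    simp only [convolution_eq_swap, ContinuousLinearMap.lsmul_apply, smul_eq_mul] at hx
    simpa only [mol, rho, mul_comm] using hx

end Pool.Agent.Lib.MP_6c3a95_mp
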