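import Pool.Agent.Lib.MP_6c3a95_mp.Kernel

/-! The lower bound for the sum of the pair kernel over all pairs of points in three-space. -/

open Finset
open scoped RealInnerProductSpace

noncomputable section

namespace Pool.Agent.Lib.MP_6c3a95_mp

abbrev E3 := EuclideanSpace ℝ (Fin 3)

/-- the pair kernel -/
def Kv (x y : E3) : ℝ := ⟪‖x‖ • x - ‖y‖ • y, x - y⟫ / ‖x - y‖ ^ 3

lemma Kv_symm (x y : E3) : Kv x y = Kv y x := by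
  unfold Kv
  rw [norm_sub_rev x y, ← neg_sub y x, ← neg_sub (‖y‖ • y), inner_neg_neg]

lemma inner_dot (x y : E3) : ⟪x, y⟫ = dot (fun a => x a) (fun a => y a) := by
  simp [PiLp.inner_apply, dot, Fin.sum_univ_three]; ring

lemma dot_unit (x y : E3) :
    dot (fun a => y a / ‖y‖) (fun a => x a / ‖x‖) = ⟪x, y⟫ / (‖x‖ * ‖y‖) := by
  rw [inner_dot]; simp only [dot]; ring

lemma Kv_eq_le {x y : E3} (hx : x ≠ 0) (hxy : x ≠ y) (h : ‖x‖ ≤ ‖y‖) :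
    0 < 1 - 2 * (‖x‖ / ‖y‖) * (⟪x, y⟫ / (‖x‖ * ‖y‖)) + (‖x‖ / ‖y‖) ^ 2 ∧
    Kv x y = Kr 1 (‖x‖ / ‖y‖) (⟪x, y⟫ / (‖x‖ * ‖y‖)) := by
  have hr : 0 < ‖x‖ := norm_pos_iff.2 hx
  have hs : 0 < ‖y‖ := hr.trans_le h
  have hd : 0 < ‖x - y‖ := norm_pos_iff.2 (sub_ne_zero.2 hxy)
  have hn : ‖x - y‖ ^ 2 = ‖x‖ ^ 2 - 2 * ⟪x, y⟫ + ‖y‖ ^ 2 := norm_sub_sq_real x y
  have hD : 1 - 2 * (‖x‖ / ‖y‖) * (⟪x, y⟫ / (‖x‖ * ‖y‖)) + (‖x‖ / ‖y‖) ^ 2 =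
      (‖x - y‖ / ‖y‖) ^ 2 := by
    rw [div_pow ‖x - y‖, hn]; field_simp; ring
  refine ⟨by rw [hD]; positivity, ?_⟩
  have hi : ⟪‖x‖ • x - ‖y‖ • y, x - y⟫ = ‖x‖ ^ 3 + ‖y‖ ^ 3 - (‖x‖ + ‖y‖) * ⟪x, y⟫ := by
    simp only [inner_sub_left, inner_sub_right, real_inner_smul_left, real_inner_self_eq_norm_sq,
      real_inner_comm x y]
    ring
  rw [Kv, Kr, one_mul, hD, Real.sqrt_sq (by positivity), hi]
  generalize ‖x - y‖ = d at hd hn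
  field_simp
  linear_combination (-‖y‖) * hn

lemma Kr_le_Kv {x y : E3} (hx : x ≠ 0) (hy : y ≠ 0) (hxy : x ≠ y) {σ : ℝ} (h0 : 0 ≤ σ)
    (h1 : σ ≤ 1) :
    σ * Kr (σ ^ 2) (min ‖x‖ ‖y‖ / max ‖x‖ ‖y‖) (⟪x, y⟫ / (‖x‖ * ‖y‖)) ≤ Kv x y := by
  have hc : |⟪x, y⟫ / (‖x‖ * ‖y‖)| ≤ 1 := abs_real_inner_div_norm_mul_norm_le_one x y
  rcases le_total ‖x‖ ‖y‖ with h | h
  · obtain ⟨a, b⟩ := Kv_eq_le hx hxy h
    rw [min_eq_left h, max_eq_right h, b]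
    exact Kr_mono hc h0 h1 (by positivity) (div_le_one_of_le₀ h (norm_nonneg _)) a
  · obtain ⟨a, b⟩ := Kv_eq_le hy hxy.symm h
    rw [min_eq_right h, max_eq_left h, Kv_symm, b, real_inner_comm, mul_comm ‖x‖]
    rw [real_inner_comm, mul_comm ‖x‖] at hc
    exact Kr_mono hc h0 h1 (by positivity) (div_le_one_of_le₀ h (norm_nonneg _)) a

theorem pair_sum {N : ℕ} (x : Fin N → E3) (hx : ∀ i, x i ≠ 0) (hi : Function.Injective x)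
    {σ : ℝ} (h0 : 0 ≤ σ) (h1 : σ < 1) :
    σ * ((N : ℝ) ^ 2 - N / (1 - σ ^ 2)) ≤ 2 * ∑ i, ∑ j ∈ Ioi i, Kv (x i) (x j) := by
  have hr : ∀ i, 0 < ‖x i‖ := fun i => norm_pos_iff.2 (hx i)
  have hσ : σ ^ 2 < 1 := by nlinarith
  have hu : ∀ i, ⟪x i, x i⟫ / (‖x i‖ * ‖x i‖) = 1 := fun i => by
    rw [real_inner_self_eq_norm_mul_norm, div_self (mul_pos (hr i) (hr i)).ne']
  have h := Kr_sum (fun i a => x i a / ‖x i‖) (fun i => by rw [dot_unit, hu])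
    (fun i j => by rw [dot_unit]; exact abs_real_inner_div_norm_mul_norm_le_one _ _)
    (fun i => ‖x i‖) hr (sq_nonneg σ) hσ
  simp only [dot_unit, Fintype.card_fin] at h
  have e := sum_sum_Ioi_add_eq_sum_sum_off_diag (fun j i : Fin N => Kv (x i) (x j))
  have e2 : 2 * ∑ i, ∑ j ∈ Ioi i, Kv (x i) (x j) = ∑ i, ∑ j ∈ ({i}ᶜ : Finset (Fin N)),
      Kv (x i) (x j) := by
    rw [← e]
    simp only [mul_sum]
    refine sum_congr rfl fun i _ => sum_congr rfl fun j _ => ?_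
    rw [Kv_symm (x j)]; ring
  rw [e2]
  have h2 : ∀ i, σ * ∑ j, Kr (σ ^ 2) (min ‖x i‖ ‖x j‖ / max ‖x i‖ ‖x j‖)
      (⟪x i, x j⟫ / (‖x i‖ * ‖x j‖)) ≤
      σ / (1 - σ ^ 2) + ∑ j ∈ ({i}ᶜ : Finset (Fin N)), Kv (x i) (x j) := by
    intro i
    rw [← sum_add_sum_compl {i}, sum_singleton, hu, min_self, max_self, div_self (hr i).ne',
      Kr_diag hσ, mul_add, mul_one_div, mul_sum]
    gcongr with j hj
    exact Kr_le_Kv (hx i) (hx j) (fun e => by simp [hi e] at hj) h0 h1.le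
  have h3 := sum_le_sum fun i (_ : i ∈ univ) => h2 i
  rw [← mul_sum, sum_add_distrib, sum_const, card_univ, Fintype.card_fin, nsmul_eq_mul] at h3
  have h4 := mul_le_mul_of_nonneg_left h h0
  have : σ * (N / (1 - σ ^ 2)) = N * (σ / (1 - σ ^ 2)) := by ring
  rw [mul_sub, this]
  linarith

end Pool.Agent.Lib.MP_6c3a95_mp
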