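import Pool.Agent.Lib.MP_6c3a95_mp.Weak
import Pool.Agent.Lib.MP_6c3a95_mp.PairSum

/-! Radial coefficient fields and the Hardy inequality. -/

open MeasureTheory Filter Topology Finset
open scoped ContDiff ENNReal RealInnerProductSpace

noncomputable section

namespace Pool.Agent.Lib.MP_6c3a95_mp

/-- bounded and continuous -/
structure Bd {X : Type*} [TopologicalSpace X] (f : X → ℝ) : Prop where
  cont : Continuous f
  bd : ∃ C, ∀ x, |f x| ≤ C

section Bd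

variable {X : Type*} [TopologicalSpace X]

lemma Bd.mul {f g : X → ℝ} (hf : Bd f) (hg : Bd g) : Bd fun x => f x * g x := by
  obtain ⟨C, hC⟩ := hf.bd
  obtain ⟨D, hD⟩ := hg.bd
  refine ⟨hf.cont.mul hg.cont, C * D, fun x => ?_⟩
  rw [abs_mul]
  exact mul_le_mul (hC x) (hD x) (abs_nonneg _) ((abs_nonneg _).trans (hC x))

lemma Bd.add {f g : X → ℝ} (hf : Bd f) (hg : Bd g) : Bd fun x => f x + g x := by
  obtain ⟨C, hC⟩ := hf.bd
  obtain ⟨D, hD⟩ := hg.bd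
  exact ⟨hf.cont.add hg.cont, C + D, fun x => (abs_add_le _ _).trans (add_le_add (hC x) (hD x))⟩

lemma Bd.const (c : ℝ) : Bd fun _ : X => c := ⟨continuous_const, |c|, fun _ => le_rfl⟩

lemma Bd.congr {f g : X → ℝ} (hf : Bd f) (h : ∀ x, g x = f x) : Bd g := by rwa [funext h]

lemma Bd.comp2 {f g : X → ℝ} (hf : Bd f) (hg : Bd g) (P : ℝ → ℝ → ℝ)
    (hP : Continuous fun p : ℝ × ℝ => P p.1 p.2) : Bd fun x => P (f x) (g x) := by
  obtain ⟨C, hC⟩ := hf.bd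
  obtain ⟨D, hD⟩ := hg.bd
  obtain ⟨B, hB⟩ := ((isCompact_Icc (a := -C) (b := C)).prod
    (isCompact_Icc (a := -D) (b := D))).exists_bound_of_continuousOn hP.continuousOn
  exact ⟨hP.comp (hf.cont.prodMk hg.cont), B, fun x =>
    hB (f x, g x) ⟨abs_le.1 (hC x), abs_le.1 (hD x)⟩⟩

lemma Bd.memLp [MeasurableSpace X] [OpensMeasurableSpace X] {μ : Measure X} {f : X → ℝ}
    (hf : Bd f) : MemLp f ⊤ μ := by
  obtain ⟨C, hC⟩ := hf.bd
  exact memLp_top_of_bound hf.cont.aestronglyMeasurable C (Eventually.of_forall hC)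

end Bd

section HI

variable {X : Type*} [MeasurableSpace X] {μ : Measure X}

/-- integrable with a given integral -/
structure HI (μ : Measure X) (f : X → ℝ) (I : ℝ) : Prop where
  int : Integrable f μ
  eq : ∫ x, f x ∂μ = I

lemma HI.of {f : X → ℝ} (h : Integrable f μ) : HI μ f (∫ x, f x ∂μ) := ⟨h, rfl⟩

lemma HI.add {f g : X → ℝ} {I J : ℝ} (h : HI μ f I) (h' : HI μ g J) :
    HI μ (fun x => f x + g x) (I + J) :=
  ⟨h.int.add h'.int, by rw [integral_add h.int h'.int, h.eq, h'.eq]⟩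

lemma HI.sub {f g : X → ℝ} {I J : ℝ} (h : HI μ f I) (h' : HI μ g J) :
    HI μ (fun x => f x - g x) (I - J) :=
  ⟨h.int.sub h'.int, by rw [integral_sub h.int h'.int, h.eq, h'.eq]⟩

lemma HI.const_mul {f : X → ℝ} {I : ℝ} (h : HI μ f I) (c : ℝ) :
    HI μ (fun x => c * f x) (c * I) :=
  ⟨h.int.const_mul c, by rw [integral_const_mul, h.eq]⟩

lemma HI.sum {ι : Type*} (s : Finset ι) {f : ι → X → ℝ} {I : ι → ℝ}
    (h : ∀ i ∈ s, HI μ (f i) (I i)) : HI μ (fun x => ∑ i ∈ s, f i x) (∑ i ∈ s, I i) :=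
  ⟨integrable_finsetSum s fun i hi => (h i hi).int, by
    rw [integral_finsetSum s fun i hi => (h i hi).int]
    exact sum_congr rfl fun i hi => (h i hi).eq⟩

lemma HI.tri {c a b : X → ℝ} (hc : MemLp c ⊤ μ) (ha : MemLp a 2 μ) (hb : MemLp b 2 μ) :
    HI μ (fun x => c x * a x * b x) (Tri μ c a b) := ⟨Tri_int hc ha hb, rfl⟩

lemma HI.le {f g : X → ℝ} {I J : ℝ} (h : HI μ f I) (h' : HI μ g J) (hle : ∀ᵐ x ∂μ, f x ≤ g x) :
    I ≤ J := by
  rw [← h.eq, ← h'.eq]; exact integral_mono_ae h.int h'.int hle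

lemma HI.eq_of {f g : X → ℝ} {I J : ℝ} (h : HI μ f I) (h' : HI μ g J) (he : ∀ x, f x = g x) :
    I = J := by
  rw [← h.eq, ← h'.eq, funext he]

end HI

/-- regularised distance -/
def sL (ε : ℝ) (y : E3) : ℝ := √(‖y‖ ^ 2 + ε ^ 2)

lemma sL_sq (ε : ℝ) (y : E3) : sL ε y ^ 2 = ‖y‖ ^ 2 + ε ^ 2 := Real.sq_sqrt (by positivity)

lemma sL_pos {ε : ℝ} (hε : 0 < ε) (y : E3) : 0 < sL ε y := Real.sqrt_pos.2 (by positivity)

lemma norm_le_sL (ε : ℝ) (y : E3) : ‖y‖ ≤ sL ε y := Real.le_sqrt_of_sq_le (by nlinarith)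

lemma le_sL (ε : ℝ) (y : E3) : ε ≤ sL ε y := Real.le_sqrt_of_sq_le (by nlinarith)

lemma sL_le {ε : ℝ} (hε : 0 ≤ ε) (y : E3) : sL ε y ≤ ‖y‖ + ε :=
  Real.sqrt_le_iff.2 ⟨by positivity, by nlinarith [norm_nonneg y]⟩

lemma sL_cont (ε : ℝ) : Continuous (sL ε) := by unfold sL; fun_prop

lemma sL_tendsto {η : ℕ → ℝ} (h : Tendsto η atTop (𝓝 0)) (y : E3) :
    Tendsto (fun n => sL (η n) y) atTop (𝓝 ‖y‖) := by
  have := ((h.pow 2).const_add (‖y‖ ^ 2)).sqrt
  simpa [sL, Real.sqrt_sq (norm_nonneg y)] using this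

variable {X : Type*} [NormedAddCommGroup X] [NormedSpace ℝ X] [FiniteDimensional ℝ X]
  [MeasurableSpace X] [BorelSpace X] {μ : Measure X} [μ.IsAddHaarMeasure]

lemma LD_inner (L : X →L[ℝ] E3) (b : E3) (w : X) :
    LD (fun x => ⟪L x, b⟫) (fun _ => ⟪L w, b⟫) w := fun x => by
  simp only [map_add, map_smul, inner_add_left, real_inner_smul_left]
  simpa using ((hasDerivAt_id' (0 : ℝ)).mul_const ⟪L w, b⟫).const_add ⟪L x, b⟫

lemma LD_sL (L : X →L[ℝ] E3) {ε : ℝ} (hε : 0 < ε) (w : X) :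
    LD (fun x => sL ε (L x)) (fun x => ⟪L x, L w⟫ / sL ε (L x)) w := fun x => by
  have h : HasDerivAt (fun t : ℝ => L (x + t • w)) (L w) 0 := by
    simp only [map_add, map_smul]
    simpa using ((hasDerivAt_id' (0 : ℝ)).smul_const (L w)).const_add (L x)
  have h2 := (h.norm_sq.add_const (ε ^ 2)).sqrt (by positivity)
  refine h2.congr_deriv ?_
  simp only [zero_smul, add_zero, sL]
  field_simp

lemma Bd_n (L : X →L[ℝ] E3) {ε : ℝ} (hε : 0 < ε) (b : E3) :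
    Bd fun x => ⟪L x, b⟫ / sL ε (L x) := by
  refine ⟨Continuous.div (by fun_prop) ((sL_cont ε).comp L.continuous)
    fun x => (sL_pos hε _).ne', ‖b‖, fun x => ?_⟩
  rw [abs_div, abs_of_pos (sL_pos hε _), div_le_iff₀ (sL_pos hε _), mul_comm]
  exact (abs_real_inner_le_norm _ _).trans (by gcongr; exact norm_le_sL _ _)

lemma Bd_inv (L : X →L[ℝ] E3) {ε : ℝ} (hε : 0 < ε) : Bd fun x => 1 / sL ε (L x) := by
  refine ⟨Continuous.div continuous_const ((sL_cont ε).comp L.continuous)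
    fun x => (sL_pos hε _).ne', 1 / ε, fun x => ?_⟩
  rw [abs_of_pos (one_div_pos.2 (sL_pos hε _))]
  exact one_div_le_one_div_of_le hε (le_sL _ _)

lemma good_rad (L : X →L[ℝ] E3) {ε : ℝ} (hε : 0 < ε) (w : X) {F F' : ℝ → ℝ}
    (hF : ∀ s, 0 < s → HasDerivAt F (F' s) s) (b0 : Bd fun x => F (sL ε (L x)))
    (b1 : Bd fun x => F' (sL ε (L x))) :
    Good μ (fun x => F (sL ε (L x))) (fun x => F' (sL ε (L x)) * (⟪L x, L w⟫ / sL ε (L x))) w :=
  ⟨b0.memLp, (b1.mul (Bd_n L hε _)).memLp, (LD_sL L hε w).comp fun _ => hF _ (sL_pos hε _)⟩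

lemma good_vec (L : X →L[ℝ] E3) {ε : ℝ} (hε : 0 < ε) (w : X) (b : E3) {F F' : ℝ → ℝ}
    (hF : ∀ s, 0 < s → HasDerivAt F (F' s) s) (b0 : Bd fun x => F (sL ε (L x)))
    (b1 : Bd fun x => sL ε (L x) * F (sL ε (L x)))
    (b2 : Bd fun x => sL ε (L x) * F' (sL ε (L x))) :
    Good μ (fun x => F (sL ε (L x)) * ⟪L x, b⟫)
      (fun x => F' (sL ε (L x)) * (⟪L x, L w⟫ / sL ε (L x)) * ⟪L x, b⟫ +
        F (sL ε (L x)) * ⟪L w, b⟫) w := by
  refine ⟨((b1.mul (Bd_n L hε b)).congr fun x => ?_).memLp,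
    ((((b2.mul (Bd_n L hε (L w))).mul (Bd_n L hε b)).add
      (b0.mul (Bd.const ⟪L w, b⟫))).congr fun x => ?_).memLp,
    ((LD_sL L hε w).comp fun _ => hF _ (sL_pos hε _)).mul (LD_inner L b w)⟩
  · have := sL_pos hε (L x); field_simp
  · have := sL_pos hε (L x); field_simp

lemma good_W (L : X →L[ℝ] E3) {ε : ℝ} (hε : 0 < ε) (w : X) :
    Good μ (fun x => 1 / sL ε (L x)) (fun x => - (⟪L x, L w⟫ / sL ε (L x) ^ 3)) w := by
  have h := good_rad (μ := μ) L hε w (F := fun s => 1 / s) (F' := fun s => - (1 / s * (1 / s)))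
    (fun s hs => by
      refine ((hasDerivAt_const s (1 : ℝ)).fun_div (hasDerivAt_id' s) hs.ne').congr_deriv ?_
      field_simp; ring) (Bd_inv L hε)
    ((((Bd_inv L hε).mul (Bd_inv L hε)).mul (Bd.const (-1))).congr fun x => by ring)
  refine h.congr fun x => ?_
  have := sL_pos hε (L x); field_simp

/-- the standard basis of three-space -/
def bv (a : Fin 3) : E3 := EuclideanSpace.single a 1

lemma inner_bv (y : E3) (a : Fin 3) : ⟪y, bv a⟫ = y a := by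
  simp [bv, EuclideanSpace.inner_single_right]

lemma bv_apply (a b : Fin 3) : bv a b = if b = a then 1 else 0 := by
  simp [bv, PiLp.single_apply]

lemma norm_sq3 (y : E3) : ‖y‖ ^ 2 = y 0 ^ 2 + y 1 ^ 2 + y 2 ^ 2 := by
  rw [EuclideanSpace.real_norm_sq_eq, Fin.sum_univ_three]

lemma ae_ne (L : X →L[ℝ] E3) {w : X} (hw : L w ≠ 0) : ∀ᵐ x ∂μ, L x ≠ 0 := by
  have := Measure.addHaar_submodule μ (LinearMap.ker (L : X →ₗ[ℝ] E3)) fun h => by
    have : w ∈ LinearMap.ker (L : X →ₗ[ℝ] E3) := h ▸ Submodule.mem_top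
    exact hw this
  exact compl_mem_ae_iff.2 this

lemma bv_ne (a : Fin 3) : bv a ≠ 0 := fun h => by
  have := congrArg (fun y : E3 => y a) h
  simp [bv_apply] at this

lemma hardy_reg (L : X →L[ℝ] E3) (w : Fin 3 → X) (hw : ∀ a, L (w a) = bv a) {u : X → ℝ}
    {G : Fin 3 → X → ℝ} (hu : MemLp u 2 μ) (hG : ∀ a, MemLp (G a) 2 μ)
    (hd : ∀ a, WD μ u (G a) (w a)) {ε : ℝ} (hε : 0 < ε) :
    ∫ x, (1 / sL ε (L x) * u x) ^ 2 ∂μ ≤ 4 * ∑ a, ∫ x, G a x ^ 2 ∂μ := by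
  have g : ∀ a, _ := fun a => good_vec (μ := μ) L hε (w a) (bv a) (F := fun s => 1 / s * (1 / s))
    (F' := fun s => - 2 * (1 / s * (1 / s) * (1 / s)))
    (fun s hs => by
      have h := (hasDerivAt_const s (1 : ℝ)).fun_div (hasDerivAt_id' s) hs.ne'
      refine (h.fun_mul h).congr_deriv ?_
      field_simp; ring) ((Bd_inv L hε).mul (Bd_inv L hε))
    ((Bd_inv L hε).congr fun x => by have := sL_pos hε (L x); field_simp)
    ((((Bd_inv L hε).mul (Bd_inv L hε)).mul (Bd.const (-2))).congr fun x => by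
      have := sL_pos hε (L x); field_simp)
  have h := fun a => ibpW (g a) hu (hG a) (hd a)
  have hs := sum_eq_zero (s := univ) fun a _ => h a
  have i1 := HI.sum univ fun a _ =>
    (HI.tri (g a).bd' hu hu).add ((HI.tri (g a).bd hu (hG a)).const_mul 2)
  have i3 := HI.of (hu.mul' (r := 2) (Bd_inv L hε).memLp).integrable_sq
  have i4 := HI.sum univ fun a _ => HI.of (hG a).integrable_sq
  have key := ((i3.const_mul (1 / 2)).sub (i4.const_mul 2)).le i1 (Eventually.of_forall fun x => by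
      simp only [hw, inner_bv, bv_apply, Fin.sum_univ_three, Pi.sub_apply, Pi.add_apply, if_true]
      have hp := sL_pos hε (L x)
      have hq := sL_sq ε (L x)
      rw [norm_sq3] at hq
      set r := 1 / sL ε (L x) with hr
      have e : ∀ c : ℝ, c / sL ε (L x) = c * r := fun c => by rw [hr]; ring
      simp only [e]
      have h1 : r ^ 2 * (L x 0 ^ 2 + L x 1 ^ 2 + L x 2 ^ 2) ≤ 1 := by
        have : r ^ 2 * sL ε (L x) ^ 2 = 1 := by rw [hr]; field_simp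
        nlinarith [sq_nonneg (r * ε)]
      nlinarith [mul_nonneg (sq_nonneg (r * u x)) (sub_nonneg.2 h1),
        sq_nonneg (r * r * L x 0 * u x + 2 * G 0 x), sq_nonneg (r * r * L x 1 * u x + 2 * G 1 x),
        sq_nonneg (r * r * L x 2 * u x + 2 * G 2 x)])
  linarith

lemma W_ae (L : X →L[ℝ] E3) {w : X} (hw : L w ≠ 0) (u : X → ℝ) {η : ℕ → ℝ}
    (h : Tendsto η atTop (𝓝 0)) :
    ∀ᵐ x ∂μ, Tendsto (fun n => 1 / sL (η n) (L x) * u x) atTop (𝓝 (1 / ‖L x‖ * u x)) := by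
  filter_upwards [ae_ne (μ := μ) L hw] with x hx
  exact (tendsto_const_nhds.div (sL_tendsto h (L x)) (norm_ne_zero_iff.2 hx)).mul_const _

/-- a sequence of positive numbers tending to zero -/
def eta (n : ℕ) : ℝ := 1 / ((n : ℝ) + 1)

lemma eta_pos (n : ℕ) : 0 < eta n := by unfold eta; positivity

lemma eta_tendsto : Tendsto eta atTop (𝓝 0) := tendsto_one_div_add_atTop_nhds_zero_nat

lemma eLpNorm_le_of_sq {f : X → ℝ} (hf : MemLp f 2 μ) {C : ℝ} (h : ∫ x, f x ^ 2 ∂μ ≤ C) :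
    eLpNorm f 2 μ ≤ ENNReal.ofReal √C := by
  rw [← ENNReal.ofReal_toReal hf.2.ne, ← Lp.norm_toLp f hf]
  refine ENNReal.ofReal_le_ofReal (Real.le_sqrt_of_sq_le ?_)
  rw [← real_inner_self_eq_norm_sq, inner_toLp]
  simpa only [sq] using h

theorem hardy (L : X →L[ℝ] E3) (w : Fin 3 → X) (hw : ∀ a, L (w a) = bv a) {u : X → ℝ}
    {G : Fin 3 → X → ℝ} (hu : MemLp u 2 μ) (hG : ∀ a, MemLp (G a) 2 μ)
    (hd : ∀ a, WD μ u (G a) (w a)) :
    Cv μ (fun n x => 1 / sL (eta n) (L x) * u x) (fun x => 1 / ‖L x‖ * u x) := by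
  have hw0 : L (w 0) ≠ 0 := by rw [hw]; exact bv_ne 0
  have hm : ∀ n, MemLp (fun x => 1 / sL (eta n) (L x) * u x) 2 μ := fun n =>
    hu.mul' (Bd_inv L (eta_pos n)).memLp
  have hae := W_ae (μ := μ) L hw0 u eta_tendsto
  have hl : MemLp (fun x => 1 / ‖L x‖ * u x) 2 μ := by
    refine ⟨aestronglyMeasurable_of_tendsto_ae atTop (fun n => (hm n).1) hae, ?_⟩
    refine (Lp.eLpNorm_lim_le_liminf_eLpNorm (p := 2) (fun n => (hm n).1) _ hae).trans_lt ?_
    refine lt_of_le_of_lt (liminf_le_of_frequently_le' (Frequently.of_forall fun n =>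
      eLpNorm_le_of_sq (hm n) (hardy_reg L w hw hu hG hd (eta_pos n)))) ENNReal.ofReal_lt_top
  refine Cv.of_ae hl (fun n => (hm n).1) (fun n => eLpNorm_mono_ae ?_) hae
  filter_upwards [ae_ne (μ := μ) L hw0] with x hx
  have h1 := norm_pos_iff.2 hx
  simp only [norm_mul]
  gcongr
  rw [Real.norm_of_nonneg (one_div_pos.2 (sL_pos (eta_pos n) _)).le,
    Real.norm_of_nonneg (one_div_pos.2 h1).le]
  exact one_div_le_one_div_of_le h1 (norm_le_sL _ _)

end Pool.Agent.Lib.MP_6c3a95_mp
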