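import Pool.Agent.Lib.MP_6c3a95_mp.Pot

/-! Absence of weak eigenfunctions. -/

open MeasureTheory Filter Topology Finset
open scoped ContDiff ENNReal RealInnerProductSpace

noncomputable section

namespace Pool.Agent.Lib.MP_6c3a95_mp

variable {N : ℕ}

/-- the Coulomb potential -/
def Vc (Z : ℝ) (x : Cf N) : ℝ := -∑ i, Z / ‖x i‖ + ∑ i, ∑ j ∈ Ioi i, 1 / ‖x i - x j‖

lemma Vc_mul (Z lam : ℝ) (u : Cf N → ℝ) (x : Cf N) : (Vc Z x - lam) * u x =
    (-Z) * ∑ i, 1 / ‖x i‖ * u x + ∑ i, ∑ j ∈ Ioi i, 1 / ‖x i - x j‖ * u x - lam * u x := by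
  simp only [Vc, ← sum_mul, div_eq_mul_one_div Z, ← mul_sum]
  ring

lemma Vc_memLp {u : Cf N → ℝ} {G : Fin N × Fin 3 → Cf N → ℝ}
    (hu : MemLp u 2 volume) (hG : ∀ α, MemLp (G α) 2 volume)
    (hw : ∀ α, WD volume u (G α) (ed α)) (Z lam : ℝ) :
    MemLp (fun x => (Vc Z x - lam) * u x) 2 volume := by
  simp only [Vc_mul]
  exact (((memLp_finsetSum univ fun i _ => (cv_nuc hu hG hw i).lim).const_mul (-Z)).add
    (memLp_finsetSum univ fun i _ => memLp_finsetSum (Ioi i) fun j hj =>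
      (cv_pair hu hG hw (mem_Ioi.1 hj).ne').lim)).sub (hu.const_mul lam)

lemma Lam_V {ε : ℝ} (hε : 0 < ε) {u : Cf N → ℝ} {G : Fin N × Fin 3 → Cf N → ℝ}
    (hu : MemLp u 2 volume) (hG : ∀ α, MemLp (G α) 2 volume)
    (hw : ∀ α, WD volume u (G α) (ed α)) (Z lam : ℝ) :
    Lam ε u G (fun x => (Vc Z x - lam) * u x) =
      (-Z) * ∑ i, Lam ε u G (fun x => 1 / ‖x i‖ * u x) +
        ∑ i, ∑ j ∈ Ioi i, Lam ε u G (fun x => 1 / ‖x i - x j‖ * u x) - lam * Lam ε u G u := by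
  refine (Lam_HI hε hu hG (Vc_memLp hu hG hw Z lam)).eq_of
    ((((HI.sum univ fun i _ => Lam_HI hε hu hG (cv_nuc hu hG hw i).lim).const_mul (-Z)).add
    (HI.sum univ fun i _ => HI.sum (Ioi i) fun j hj =>
      Lam_HI hε hu hG (cv_pair hu hG hw (mem_Ioi.1 hj).ne').lim)).sub
      ((Lam_HI hε hu hG hu).const_mul lam)) fun x => ?_
  simp only [← sum_mul, ← add_mul, Vc_mul, pr_apply, _root_.sub_apply, ← mul_sum]
  ring

lemma sum_min_ge {ι : Type*} (s : Finset ι) {f : ι → ℝ} (hf : ∀ i ∈ s, 0 ≤ f i) {M : ℝ}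
    (hM : 0 ≤ M) : min (∑ i ∈ s, f i) M ≤ ∑ i ∈ s, min (f i) M := by
  by_cases h : ∀ i ∈ s, f i ≤ M
  · rw [sum_congr rfl fun i hi => min_eq_left (h i hi)]; exact min_le_left _ _
  · push Not at h
    obtain ⟨i, hi, hl⟩ := h
    refine (min_le_right _ _).trans ((min_eq_right hl.le).symm.le.trans ?_)
    exact single_le_sum (f := fun i => min (f i) M) (fun j hj => le_min (hf j hj) hM) hi

lemma Kv_nonneg (x y : E3) : 0 ≤ Kv x y :=
  ge_of_tendsto' (Kq_eps eta_tendsto x y) fun n => Kq_nonneg (eta_pos n) _ _ _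

theorem real_main {Z lam σ : ℝ} (hZ : 0 ≤ Z) (h0 : 0 ≤ σ) (h1 : σ < 1)
    (hc : 2 * Z * N < σ * ((N : ℝ) ^ 2 - N / (1 - σ ^ 2)))
    {u : Cf N → ℝ} {G : Fin N × Fin 3 → Cf N → ℝ}
    (hu : MemLp u 2 volume) (hG : ∀ α, MemLp (G α) 2 volume)
    (hw : ∀ α, WD volume u (G α) (ed α))
    (heq : ∀ φ, Test φ → ∑ α, (∫ x, G α x * fderiv ℝ φ x (ed α)) +
      ∫ x, (Vc Z x - lam) * u x * φ x = 0) : u =ᵐ[volume] 0 := by
  set M := σ * ((N : ℝ) ^ 2 - N / (1 - σ ^ 2)) / 2 with hM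
  have hM0 : 0 ≤ M := by
    have : 0 ≤ 2 * Z * N := by positivity
    linarith
  set A := ∫ x, u x ^ 2 with hA
  set B := ∑ i : Fin N, (A + ∫ x : Cf N, (1 / ‖x i‖ * u x) ^ 2) with hB
  have step : ∀ ε, 0 < ε → ∑ i, ∑ j ∈ Ioi i, ∫ x : Cf N, min (Kq ε 0 (x i) (x j)) M * u x ^ 2 ≤
      Z * N * A + ε * ((Z + 220) * B) := by
    intro ε hε
    have p := pohozaev ed hu hG (Vc_memLp hu hG hw Z lam) hw heq (good_vf hε) (good_mf hε)
      (mf_bd hε) (div_vf hε)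
    have k := kinetic hε hu hG hw fun i => (cv_nuc hu hG hw i).lim
    have l := Lam_V hε hu hG hw Z lam
    rw [Lam_self hε hu hG hw] at l
    have n1 := mul_le_mul_of_nonneg_left
      (sum_le_sum fun i (_ : i ∈ univ) => Lam_nuc hε hu hG hw i) hZ
    have n2 := sum_le_sum fun i (_ : i ∈ univ) => sum_le_sum fun j (hj : j ∈ Ioi i) =>
      Lam_pair hε hu hG hw (mem_Ioi.1 hj).ne' hM0
    simp only [← mul_sum] at n2
    rw [← mul_sum, sum_add_distrib, ← mul_sum, sum_const, card_univ, Fintype.card_fin,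
      nsmul_eq_mul] at n1
    unfold Lam at l
    unfold Lam at n1 n2
    rw [← hA, ← hB] at n1 k
    linarith
  have lim : ∑ i, ∑ j ∈ Ioi i, ∫ x : Cf N, min (Kv (x i) (x j)) M * u x ^ 2 ≤ Z * N * A := by
    have t1 := tendsto_finsetSum univ fun i _ => tendsto_finsetSum (Ioi i) fun j _ =>
      min_tendsto hM0 (fun n => Kq_meas (eta n) 0 i j) (fun n x => Kq_nonneg (eta_pos n) _ _ _) hu
        (g := fun x : Cf N => Kv (x i) (x j))
        (Eventually.of_forall fun x => Kq_eps eta_tendsto _ _)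
    have t2 := (eta_tendsto.mul_const ((Z + 220) * B)).const_add (Z * N * A)
    simpa using le_of_tendsto_of_tendsto' t1 t2 fun n => step _ (eta_pos n)
  have low : M * A ≤ ∑ i, ∑ j ∈ Ioi i, ∫ x : Cf N, min (Kv (x i) (x j)) M * u x ^ 2 := by
    refine ((HI.of hu.integrable_sq).const_mul M).le (HI.sum univ fun i _ => HI.sum (Ioi i)
      fun j _ => HI.of (min_int hM0 (by simpa only [Kq_zero] using Kq_meas 0 0 i j)
        (Eventually.of_forall fun x => Kv_nonneg _ _) hu)) ?_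
    filter_upwards [ae_nz, ae_inj] with x hx hi
    simp only [← sum_mul]
    refine mul_le_mul_of_nonneg_right ?_ (sq_nonneg _)
    have ps := pair_sum x hx hi h0 h1
    have a1 := sum_min_ge univ (f := fun i => ∑ j ∈ Ioi i, Kv (x i) (x j))
      (fun i _ => sum_nonneg fun j _ => Kv_nonneg _ _) hM0
    have a2 := sum_le_sum fun i (_ : i ∈ univ) => sum_min_ge (Ioi i)
      (f := fun j => Kv (x i) (x j)) (fun j _ => Kv_nonneg _ _) hM0
    rw [min_eq_right (by linarith)] at a1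
    exact a1.trans a2
  have hA0 : 0 ≤ A := integral_nonneg fun x => sq_nonneg _
  have hA1 : A = 0 := by
    have : (M - Z * N) * A ≤ 0 := by linarith
    have h2 : 0 < M - Z * N := by linarith
    nlinarith
  have := (integral_eq_zero_iff_of_nonneg (fun x => sq_nonneg (u x)) hu.integrable_sq).1 hA1
  filter_upwards [this] with x hx
  simpa using hx

lemma exists_sigma {Z : ℝ} (hZ : 0 ≤ Z) (hN : 2 * Z + √(4 * Z + 1 / 2) + 3 / 4 ≤ N) :
    ∃ σ : ℝ, 0 ≤ σ ∧ σ < 1 ∧ 2 * Z * N < σ * ((N : ℝ) ^ 2 - N / (1 - σ ^ 2)) := by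
  set q := √(4 * Z + 1 / 2) with hq
  have hq0 : 0 ≤ q := Real.sqrt_nonneg _
  have hq2 : q ^ 2 = 4 * Z + 1 / 2 := Real.sq_sqrt (by positivity)
  have hN0 : (0 : ℝ) < N := by linarith
  set w := √(2 * (N : ℝ)) with hw
  have hw2 : w ^ 2 = 2 * N := Real.sq_sqrt (by positivity)
  have hwq : 1 + q ≤ w := Real.le_sqrt_of_sq_le (by nlinarith)
  have hw1 : 1 ≤ w := by linarith
  have hw0 : 0 < w := by linarith
  refine ⟨1 - 1 / w, sub_nonneg.2 ((div_le_one hw0).2 hw1), by simp [hw0], ?_⟩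
  have h2 : 0 < 2 * w - 1 := by linarith
  have e : (1 - 1 / w) * ((N : ℝ) ^ 2 - N / (1 - (1 - 1 / w) ^ 2)) =
      N * (w ^ 2 / 2 - w + 1 / 4 + 1 / (4 * (2 * w - 1))) := by
    have e1 : 1 - (1 - 1 / w) ^ 2 = (2 * w - 1) / w ^ 2 := by field_simp; ring
    have e2 : (N : ℝ) = w ^ 2 / 2 := by linarith
    rw [e1, sq (N : ℝ)]
    nth_rewrite 2 [e2]
    have e3 : w = (2 * w - 1 + 1) / 2 := by ring
    generalize 2 * w - 1 = t at h2 e3 ⊢
    have ht : t + 1 ≠ 0 := by linarith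
    rw [e3]
    field_simp
    ring
  rw [e, mul_comm]
  refine mul_lt_mul_of_pos_left ?_ hN0
  have : 0 < 1 / (4 * (2 * w - 1)) := by positivity
  nlinarith [pow_le_pow_left₀ hq0 (le_sub_iff_add_le'.2 hwq) 2]

theorem complex_main {Z lam : ℝ} (hZ : 0 ≤ Z) (hN : 2 * Z + √(4 * Z + 1 / 2) + 3 / 4 ≤ N)
    {Ψ : Cf N → ℂ} {G : Fin N × Fin 3 → Cf N → ℂ}
    (hu : MemLp Ψ 2 volume) (hG : ∀ α, MemLp (G α) 2 volume)
    (hw : ∀ α φ, Test φ → ∫ x, Ψ x * (fderiv ℝ φ x (ed α) : ℝ) = -∫ x, G α x * (φ x : ℝ))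
    (heq : ∀ φ, Test φ → ∫ x, (∑ α, G α x * (fderiv ℝ φ x (ed α) : ℝ) +
      (Vc Z x : ℝ) * Ψ x * (φ x : ℝ)) = lam * ∫ x, Ψ x * (φ x : ℝ)) : Ψ =ᵐ[volume] 0 := by
  obtain ⟨σ, h0, h1, hc⟩ := exists_sigma hZ hN
  have int : ∀ {f : Cf N → ℂ} {φ : Cf N → ℝ}, MemLp f 2 volume → Test φ →
      Integrable (fun x => f x * (φ x : ℝ)) := fun hf hφ =>
    hf.integrable_mul (hφ.memLp.ofReal (K := ℂ))
  have hT : ∀ (T : ℂ →L[ℝ] ℝ) (z : ℂ) (r : ℝ), T (z * r) = T z * r := fun T z r => by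
    rw [mul_comm z, ← Complex.real_smul, map_smul, smul_eq_mul, mul_comm]
  have hT' : ∀ (T : ℂ →L[ℝ] ℝ) (z : ℂ) (r : ℝ), T (r * z) = r * T z := fun T z r => by
    rw [mul_comm, hT, mul_comm]
  have iT : ∀ (T : ℂ →L[ℝ] ℝ) {f : Cf N → ℂ} {φ : Cf N → ℝ}, MemLp f 2 volume → Test φ →
      ∫ x, T (f x) * φ x = T (∫ x, f x * (φ x : ℝ)) := fun T f φ hf hφ => by
    rw [← T.integral_comp_comm (int hf hφ)]
    simp only [hT]
  have wd : ∀ (T : ℂ →L[ℝ] ℝ) α, WD volume (fun x => T (Ψ x)) (fun x => T (G α x)) (ed α) := by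
    intro T α φ hφ
    have := iT T hu (hφ.dd (ed α))
    simp only [dd] at this
    rw [this, hw α φ hφ, iT T (hG α) hφ, map_neg]
  have mV : ∀ T : ℂ →L[ℝ] ℝ, MemLp (fun x => (Vc Z x - 0) * T (Ψ x)) 2 volume := fun T =>
    Vc_memLp (T.comp_memLp' hu) (fun α => T.comp_memLp' (hG α)) (wd T) Z 0
  have mVc : MemLp (fun x => (Vc Z x : ℝ) * Ψ x) 2 volume := by
    have := ((mV Complex.reCLM).ofReal (K := ℂ)).add
      (((mV Complex.imCLM).ofReal (K := ℂ)).mul_const Complex.I)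
    refine this.ae_eq (Eventually.of_forall fun x => ?_)
    apply Complex.ext <;> simp
  have key : ∀ T : ℂ →L[ℝ] ℝ, (fun x => T (Ψ x)) =ᵐ[volume] 0 := by
    intro T
    refine real_main (lam := lam) hZ h0 h1 hc (T.comp_memLp' hu) (fun α => T.comp_memLp' (hG α))
      (wd T) fun φ hφ => ?_
    have h : T (∫ x, (∑ α, G α x * (dd φ (ed α) x : ℝ) + (Vc Z x : ℝ) * Ψ x * (φ x : ℝ))) = _ :=
      congrArg T (heq φ hφ)
    rw [integral_add (integrable_finsetSum univ fun α _ => int (hG α) (hφ.dd (ed α)))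
      (int mVc hφ), integral_finsetSum univ fun α _ => int (hG α) (hφ.dd (ed α)), map_add, map_sum,
      hT', ← iT T hu hφ, ← iT T mVc hφ] at h
    simp only [← iT T (hG _) (hφ.dd _), hT'] at h
    have i1 : Integrable fun x => Vc Z x * T (Ψ x) * φ x := by
      have := (mV T).integrable_mul hφ.memLp
      simp only [sub_zero] at this
      exact this
    have i2 : Integrable fun x => T (Ψ x) * φ x := (T.comp_memLp' hu).integrable_mul hφ.memLp
    have e : ∫ x, (Vc Z x - lam) * T (Ψ x) * φ x =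
        (∫ x, Vc Z x * T (Ψ x) * φ x) - lam * ∫ x, T (Ψ x) * φ x := by
      rw [← integral_const_mul, ← integral_sub i1 (i2.const_mul lam)]
      congr 1; ext x; ring
    simp only [dd] at h
    simp only [Function.comp_apply]
    rw [e]
    linarith
  filter_upwards [key Complex.reCLM, key Complex.imCLM] with x a b
  exact Complex.ext a b

end Pool.Agent.Lib.MP_6c3a95_mp
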