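import Pool.Agent.Lib.MP_6c3a95_mp.Legendre

/-! The generating function of the Legendre polynomials. -/

open Finset

noncomputable section

namespace Pool.Agent.Lib.MP_6c3a95_mp

/-- Legendre polynomial -/
def Pl (c : ℝ) (l : ℕ) : ℝ := Wp c l / l.factorial

lemma Wp_one : ∀ l, Wp 1 l = l.factorial
  | 0 => by simp [Wp]
  | 1 => by simp [Wp]
  | (l + 2) => by
    simp only [Wp, Wp_one (l + 1), Wp_one l, Nat.factorial_succ]
    push_cast; ring

lemma Pl_one (l : ℕ) : Pl 1 l = 1 := by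
  rw [Pl, Wp_one, div_self]; positivity

lemma Pl_zero (c : ℝ) : Pl c 0 = 1 := by simp [Pl, Wp]

lemma Pl_1 (c : ℝ) : Pl c 1 = c := by simp [Pl, Wp]

lemma Pl_rec (c : ℝ) (l : ℕ) :
    ((l : ℝ) + 2) * Pl c (l + 2) = (2 * l + 3) * c * Pl c (l + 1) - (l + 1) * Pl c l := by
  simp only [Pl, Wp, Nat.factorial_succ]
  push_cast
  have : (l.factorial : ℝ) ≠ 0 := by positivity
  field_simp
  ring

theorem Pl_pd {ι : Type*} (s : Finset ι) (y : ι → Fin 3 → ℝ) (hy : ∀ i, dot (y i) (y i) = 1)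
    (w : ι → ℝ) (l : ℕ) : 0 ≤ ∑ i ∈ s, ∑ j ∈ s, w i * w j * Pl (dot (y j) (y i)) l := by
  have h := Wp_pd s y hy w l
  have : ∑ i ∈ s, ∑ j ∈ s, w i * w j * Pl (dot (y j) (y i)) l =
      (∑ i ∈ s, ∑ j ∈ s, w i * w j * Wp (dot (y j) (y i)) l) / l.factorial := by
    simp only [sum_div, Pl, mul_div_assoc]
  rw [this]; positivity

lemma abs_Pl_le {c : ℝ} (hc : |c| ≤ 1) (l : ℕ) : |Pl c l| ≤ 1 := by
  have h1 : 0 ≤ 1 - c ^ 2 := by have := sq_le_one_iff_abs_le_one c; nlinarith [this.2 hc]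
  let y : Fin 2 → Fin 3 → ℝ := ![![1, 0, 0], ![c, √(1 - c ^ 2), 0]]
  have hy : ∀ i, dot (y i) (y i) = 1 := by
    intro i
    fin_cases i
    · simp [y, dot]
    · simp [y, dot, Real.mul_self_sqrt h1]; ring
  have e00 : dot (y 0) (y 0) = 1 := hy 0
  have e11 : dot (y 1) (y 1) = 1 := hy 1
  have e01 : dot (y 0) (y 1) = c := by simp [y, dot]
  have e10 : dot (y 1) (y 0) = c := by simp [y, dot]
  have a := Pl_pd univ y hy ![1, 1] l
  have b := Pl_pd univ y hy ![1, -1] l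
  simp only [Fin.sum_univ_two, e00, e11, e01, e10, Pl_one] at a b
  simp at a b
  rw [abs_le]; constructor <;> linarith

lemma D_pos {c τ : ℝ} (hc : |c| ≤ 1) (h0 : 0 ≤ τ) (h1 : τ < 1) : 0 < 1 - 2 * τ * c + τ ^ 2 := by
  have := (abs_le.1 hc).2
  nlinarith [mul_nonneg h0 (sub_nonneg.2 this), mul_pos (sub_pos.2 h1) (sub_pos.2 h1)]

lemma summ0 {c τ : ℝ} (hc : |c| ≤ 1) (hτ : |τ| < 1) : Summable fun l => Pl c l * τ ^ l := by
  refine Summable.of_norm_bounded (summable_geometric_of_lt_one (abs_nonneg τ) hτ) fun l => ?_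
  rw [Real.norm_eq_abs, abs_mul, abs_pow]
  exact mul_le_of_le_one_left (by positivity) (abs_Pl_le hc l)

lemma summ_aux {r : ℝ} (h0 : 0 ≤ r) (h1 : r < 1) : Summable fun l : ℕ => (l : ℝ) * r ^ (l - 1) := by
  rw [← summable_nat_add_iff 1]
  have h := summable_pow_mul_geometric_of_norm_lt_one 1 (r := r) (by rwa [Real.norm_of_nonneg h0])
  have h2 := summable_geometric_of_lt_one h0 h1
  refine (h.add h2).congr fun l => ?_
  simp; ring

lemma summ1 {c τ : ℝ} (hc : |c| ≤ 1) (hτ : |τ| < 1) :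
    Summable fun l : ℕ => Pl c l * ((l : ℝ) * τ ^ (l - 1)) := by
  refine Summable.of_norm_bounded (summ_aux (abs_nonneg τ) hτ) fun l => ?_
  rw [Real.norm_eq_abs, abs_mul, abs_mul, abs_pow, Nat.abs_cast]
  exact mul_le_of_le_one_left (by positivity) (abs_Pl_le hc l)

lemma deriv_gen {c τ : ℝ} (hc : |c| ≤ 1) (hτ : |τ| < 1) :
    HasDerivAt (fun z : ℝ => ∑' l, Pl c l * z ^ l)
      (∑' l : ℕ, Pl c l * ((l : ℝ) * τ ^ (l - 1))) τ := by
  obtain ⟨r, hr1, hr2⟩ := exists_between hτ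
  have hr0 : 0 < r := (abs_nonneg τ).trans_lt hr1
  refine hasDerivAt_tsum_of_isPreconnected (summ_aux hr0.le hr2) (t := Set.Ioo (-r) r)
    (g := fun l z => Pl c l * z ^ l) (g' := fun l z => Pl c l * ((l : ℝ) * z ^ (l - 1)))
    isOpen_Ioo isPreconnected_Ioo (fun l z _ => (hasDerivAt_pow l z).const_mul _) ?_ (y₀ := 0)
    ⟨by linarith, hr0⟩ (summ0 hc (by simp)) (abs_lt.1 hr1)
  intro l z hz
  rw [Real.norm_eq_abs, abs_mul, abs_mul, abs_pow, Nat.abs_cast]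
  refine (mul_le_of_le_one_left (by positivity) (abs_Pl_le hc l)).trans ?_
  have : |z| ≤ r := (abs_lt.2 hz).le
  gcongr

lemma shift_aux (c τ : ℝ) (l : ℕ) :
    Pl c l * ((l : ℝ) * τ ^ l) = τ * (Pl c l * ((l : ℝ) * τ ^ (l - 1))) := by
  rcases l with _ | l
  · simp
  · simp; ring

lemma ode_gen {c τ : ℝ} (hc : |c| ≤ 1) (hτ : |τ| < 1) :
    (1 - 2 * τ * c + τ ^ 2) * (∑' l : ℕ, Pl c l * ((l : ℝ) * τ ^ (l - 1))) =
      (c - τ) * ∑' l, Pl c l * τ ^ l := by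
  have hS := (summ0 hc hτ).hasSum
  have hA := (summ1 hc hτ).hasSum
  set S := ∑' l, Pl c l * τ ^ l
  set A := ∑' l : ℕ, Pl c l * ((l : ℝ) * τ ^ (l - 1))
  have hA2 := (hasSum_nat_add_iff' 2).2 hA
  have hA1 := (hasSum_nat_add_iff' 1).2 hA
  have hS1 := (hasSum_nat_add_iff' 1).2 hS
  simp only [sum_range_succ, sum_range_zero, Pl_zero, Pl_1] at hA2 hA1 hS1
  have hB : HasSum (fun l : ℕ => Pl c l * ((l : ℝ) * τ ^ l)) (τ * A) := by
    rw [show (fun l : ℕ => Pl c l * ((l : ℝ) * τ ^ l)) = _ from funext (shift_aux c τ)]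
    exact hA.mul_left τ
  have h := (((hA1.mul_left (2 * c * τ)).add (hS1.mul_left c)).sub
    ((hB.add hS).mul_left τ))
  have e := hA2.unique (by
    convert h using 2 with l
    have := Pl_rec c l
    simp only [Nat.add_sub_cancel, show l + 2 - 1 = l + 1 from rfl]
    push_cast
    linear_combination τ ^ (l + 1) * this)
  simp at e
  linear_combination e

theorem gen_fun {c τ : ℝ} (hc : |c| ≤ 1) (h0 : 0 ≤ τ) (h1 : τ < 1) :
    HasSum (fun l => Pl c l * τ ^ l) (1 / √(1 - 2 * τ * c + τ ^ 2)) ∧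
    HasSum (fun l : ℕ => Pl c l * ((l : ℝ) * τ ^ l))
      (τ * (c - τ) / √(1 - 2 * τ * c + τ ^ 2) ^ 3) := by
  have key : ∀ z ∈ Set.Icc 0 τ, HasDerivAt
      (fun z : ℝ => (∑' l, Pl c l * z ^ l) * √(1 - 2 * z * c + z ^ 2)) 0 z := by
    intro z hz
    have hz1 : |z| < 1 := by rw [abs_of_nonneg hz.1]; linarith [hz.2]
    have hD := D_pos hc hz.1 (by linarith [hz.2])
    have d1 : HasDerivAt (fun z : ℝ => 1 - 2 * z * c + z ^ 2) (- (2 * c) + 2 * z) z := by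
      have := (((hasDerivAt_id z).const_mul 2).mul_const c).const_sub 1 |>.add (hasDerivAt_pow 2 z)
      refine this.congr_deriv ?_
      simp
    have := (deriv_gen hc hz1).mul (d1.sqrt hD.ne')
    refine this.congr_deriv ?_
    have hs := Real.sqrt_pos.2 hD
    have hq := Real.mul_self_sqrt hD.le
    have ho := ode_gen hc hz1
    generalize √(1 - 2 * z * c + z ^ 2) = q at hs hq ⊢
    generalize (∑' l : ℕ, Pl c l * ((l : ℝ) * z ^ (l - 1))) = A at ho ⊢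
    generalize (∑' l : ℕ, Pl c l * z ^ l) = S at ho ⊢
    field_simp
    linear_combination ho + A * hq
  have hconst := constant_of_has_deriv_right_zero
    (f := fun z : ℝ => (∑' l, Pl c l * z ^ l) * √(1 - 2 * z * c + z ^ 2)) (a := 0) (b := τ)
    (fun z hz => (key z hz).continuousAt.continuousWithinAt)
    (fun z hz => (key z (Set.Ico_subset_Icc_self hz)).hasDerivWithinAt) τ ⟨h0, le_rfl⟩
  have h00 : ∑' l, Pl c l * (0 : ℝ) ^ l = 1 := by
    rw [tsum_eq_single 0 (fun l hl => by simp [hl])]; simp [Pl_zero]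
  simp only [h00] at hconst
  have hτ : |τ| < 1 := by rwa [abs_of_nonneg h0]
  have hD := D_pos hc h0 h1
  have hs := Real.sqrt_pos.2 hD
  have hq := Real.mul_self_sqrt hD.le
  have hS : ∑' l, Pl c l * τ ^ l = 1 / √(1 - 2 * τ * c + τ ^ 2) := by
    rw [eq_div_iff hs.ne', hconst]; simp
  refine ⟨hS ▸ (summ0 hc hτ).hasSum, ?_⟩
  have ho := ode_gen hc hτ
  rw [hS] at ho
  have hA : τ * ∑' l : ℕ, Pl c l * ((l : ℝ) * τ ^ (l - 1)) =
      τ * (c - τ) / √(1 - 2 * τ * c + τ ^ 2) ^ 3 := by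
    rw [mul_div_assoc]
    congr 1
    rw [eq_div_iff (by positivity)]
    have : √(1 - 2 * τ * c + τ ^ 2) ^ 3 = (1 - 2 * τ * c + τ ^ 2) * √(1 - 2 * τ * c + τ ^ 2) := by
      rw [pow_succ, sq, hq]
    rw [this, ← mul_assoc, mul_comm _ (1 - 2 * τ * c + τ ^ 2), ho, mul_assoc, one_div,
      inv_mul_cancel₀ hs.ne', mul_one]
  rw [← hA]
  rw [show (fun l : ℕ => Pl c l * ((l : ℝ) * τ ^ l)) = _ from funext (shift_aux c τ)]
  exact (summ1 hc hτ).hasSum.mul_left τ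

end Pool.Agent.Lib.MP_6c3a95_mp
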