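import Pool.Agent.Lib.MP_6c3a95_mp.Gen

/-! The pair kernel of the virial identity and the lower bound for its sum over all pairs. -/

open Finset

noncomputable section

namespace Pool.Agent.Lib.MP_6c3a95_mp

def kl (l : ℕ) (t : ℝ) : ℝ := ((l : ℝ) + 1) * t ^ l - l * t ^ (l + 1)

def Kr (ρ t c : ℝ) : ℝ :=
  1 / √(1 - 2 * (ρ * t) * c + (ρ * t) ^ 2) +
    (1 - t) * ((ρ * t) * (c - ρ * t) / √(1 - 2 * (ρ * t) * c + (ρ * t) ^ 2) ^ 3)

lemma hasSum_Kr {ρ t c : ℝ} (hc : |c| ≤ 1) (h0 : 0 ≤ ρ) (h1 : ρ < 1) (ht0 : 0 ≤ t) (ht1 : t ≤ 1) :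
    HasSum (fun l => ρ ^ l * (kl l t * Pl c l)) (Kr ρ t c) := by
  have hτ : ρ * t < 1 := lt_of_le_of_lt (mul_le_of_le_one_right h0 ht1) h1
  obtain ⟨a, b⟩ := gen_fun hc (mul_nonneg h0 ht0) hτ
  have := a.add (b.mul_left (1 - t))
  have e : (fun l : ℕ => ρ ^ l * (kl l t * Pl c l)) =
      fun l : ℕ => Pl c l * (ρ * t) ^ l + (1 - t) * (Pl c l * ((l : ℝ) * (ρ * t) ^ l)) := by
    funext l; simp only [kl, mul_pow]; ring
  rw [e]; exact this

def rad (m : ℕ) (r y : ℝ) : ℝ := r ^ (m + 1) * max (1 - r * y) 0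

lemma rad_cont (m : ℕ) (r : ℝ) : Continuous (rad m r) := by unfold rad; fun_prop

lemma rad_int_le (m : ℕ) {r s T : ℝ} (hr : 0 < r) (hrs : r ≤ s) (hT : 1 / s ≤ T) :
    ∫ y in (0 : ℝ)..T, y ^ (2 * m + 1) * (rad m r y * rad m s y) =
      kl (m + 1) (r / s) / (2 * (m + 1) * (m + 2) * (2 * m + 3)) := by
  have hs : 0 < s := hr.trans_le hrs
  have hc : Continuous fun y : ℝ => y ^ (2 * m + 1) * (rad m r y * rad m s y) := by
    have := rad_cont m r; have := rad_cont m s; fun_prop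
  rw [← intervalIntegral.integral_add_adjacent_intervals (b := 1 / s) (hc.intervalIntegrable _ _)
    (hc.intervalIntegrable _ _)]
  have h2 : ∫ y in (1 / s : ℝ)..T, y ^ (2 * m + 1) * (rad m r y * rad m s y) = 0 := by
    rw [intervalIntegral.integral_congr (g := fun _ => 0)]
    · simp
    intro y hy
    rw [Set.uIcc_of_le hT] at hy
    have : 1 - s * y ≤ 0 := by
      have := (div_le_iff₀' hs).1 hy.1
      linarith
    simp [rad, max_eq_right this]
  have h1 : ∫ y in (0 : ℝ)..(1 / s), y ^ (2 * m + 1) * (rad m r y * rad m s y) =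
      ∫ y in (0 : ℝ)..(1 / s), r ^ (m + 1) * s ^ (m + 1) *
        (y ^ (2 * m + 1) - (r + s) * y ^ (2 * m + 2) + r * s * y ^ (2 * m + 3)) := by
    refine intervalIntegral.integral_congr fun y hy => ?_
    rw [Set.uIcc_of_le (by positivity)] at hy
    have h1 : 0 ≤ 1 - s * y := by
      have := (le_div_iff₀' hs).1 hy.2
      linarith
    have h2 : 0 ≤ 1 - r * y := by nlinarith [hy.1]
    simp only [rad, max_eq_left h1, max_eq_left h2]
    ring
  rw [h1, h2, add_zero, intervalIntegral.integral_const_mul, intervalIntegral.integral_add,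
    intervalIntegral.integral_sub, intervalIntegral.integral_const_mul,
    intervalIntegral.integral_const_mul, integral_pow, integral_pow, integral_pow]
  · simp only [kl, div_pow]
    push_cast
    have : (s : ℝ) ^ m ≠ 0 := by positivity
    simp only [pow_succ, pow_mul', pow_zero, zero_mul, mul_zero, one_pow, sub_zero]
    field_simp
    ring
  all_goals exact Continuous.intervalIntegrable (by fun_prop) _ _

lemma rad_int (m : ℕ) {r s T : ℝ} (hr : 0 < r) (hs : 0 < s) (hT : 1 / r ≤ T) (hT' : 1 / s ≤ T) :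
    ∫ y in (0 : ℝ)..T, y ^ (2 * m + 1) * (rad m r y * rad m s y) =
      kl (m + 1) (min r s / max r s) / (2 * (m + 1) * (m + 2) * (2 * m + 3)) := by
  rcases le_total r s with h | h
  · rw [min_eq_left h, max_eq_right h, rad_int_le m hr h hT']
  · rw [min_eq_right h, max_eq_left h, ← rad_int_le m hs h hT]
    simp only [mul_comm (rad m r _)]

lemma kl_pd {ι : Type*} [Fintype ι] (y : ι → Fin 3 → ℝ) (hy : ∀ i, dot (y i) (y i) = 1)
    (r : ι → ℝ) (hr : ∀ i, 0 < r i) (m : ℕ) :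
    0 ≤ ∑ i, ∑ j, kl (m + 1) (min (r i) (r j) / max (r i) (r j)) *
      Pl (dot (y j) (y i)) (m + 1) := by
  set T := ∑ i, 1 / r i
  have hT : ∀ i, 1 / r i ≤ T := fun i =>
    single_le_sum (f := fun i => 1 / r i) (fun j _ => (one_div_pos.2 (hr j)).le) (mem_univ i)
  have hT0 : 0 ≤ T := sum_nonneg fun j _ => (one_div_pos.2 (hr j)).le
  have hC : (0 : ℝ) < 2 * (m + 1) * (m + 2) * (2 * m + 3) := by positivity
  have hcont : ∀ i j, Continuous fun z : ℝ => z ^ (2 * m + 1) *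
      (rad m (r i) z * rad m (r j) z) * Pl (dot (y j) (y i)) (m + 1) := fun i j => by
    have := rad_cont m (r i); have := rad_cont m (r j); fun_prop
  have e : ∑ i, ∑ j, kl (m + 1) (min (r i) (r j) / max (r i) (r j)) *
      Pl (dot (y j) (y i)) (m + 1) = (2 * (m + 1) * (m + 2) * (2 * m + 3)) *
      ∫ z in (0 : ℝ)..T, ∑ i, ∑ j, z ^ (2 * m + 1) * (rad m (r i) z * rad m (r j) z) *
        Pl (dot (y j) (y i)) (m + 1) := by
    rw [intervalIntegral.integral_finsetSum fun i _ =>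
      (continuous_finsetSum _ fun j _ => hcont i j).intervalIntegrable _ _, mul_sum]
    refine sum_congr rfl fun i _ => ?_
    rw [intervalIntegral.integral_finsetSum fun j _ => (hcont i j).intervalIntegrable _ _, mul_sum]
    refine sum_congr rfl fun j _ => ?_
    rw [intervalIntegral.integral_mul_const, rad_int m (hr i) (hr j) (hT i) (hT j)]
    field_simp
  rw [e]
  refine mul_nonneg hC.le (intervalIntegral.integral_nonneg hT0 fun z hz => ?_)
  have := Pl_pd univ y hy (fun i => rad m (r i) z) (m + 1)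
  have h2 := mul_nonneg (pow_nonneg hz.1 (2 * m + 1)) this
  simp only [mul_sum] at h2
  simpa only [mul_assoc] using h2

lemma Kr_sum {ι : Type*} [Fintype ι] (y : ι → Fin 3 → ℝ) (hy : ∀ i, dot (y i) (y i) = 1)
    (hc : ∀ i j, |dot (y j) (y i)| ≤ 1)
    (r : ι → ℝ) (hr : ∀ i, 0 < r i) {ρ : ℝ} (h0 : 0 ≤ ρ) (h1 : ρ < 1) :
    (Fintype.card ι : ℝ) ^ 2 ≤
      ∑ i, ∑ j, Kr ρ (min (r i) (r j) / max (r i) (r j)) (dot (y j) (y i)) := by
  have hs : HasSum (fun l => ∑ i, ∑ j, ρ ^ l * (kl l (min (r i) (r j) / max (r i) (r j)) *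
      Pl (dot (y j) (y i)) l))
      (∑ i, ∑ j, Kr ρ (min (r i) (r j) / max (r i) (r j)) (dot (y j) (y i))) := by
    refine hasSum_sum fun i _ => hasSum_sum fun j _ => hasSum_Kr (hc i j) h0 h1 ?_ ?_
    · have := hr i; have := hr j; positivity
    · exact div_le_one_of_le₀ min_le_max (le_max_of_le_left (hr i).le)
  have := le_hasSum hs 0 fun l hl => by
    obtain ⟨m, rfl⟩ := Nat.exists_eq_succ_of_ne_zero hl
    have := mul_nonneg (pow_nonneg h0 (m + 1)) (kl_pd y hy r hr m)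
    simpa only [mul_sum] using this
  simpa [kl, Pl_zero, sq] using this

lemma Kr_diag {ρ : ℝ} (h1 : ρ < 1) : Kr ρ 1 1 = 1 / (1 - ρ) := by
  have : 1 - 2 * (ρ * 1) * 1 + (ρ * 1) ^ 2 = (1 - ρ) ^ 2 := by ring
  rw [Kr, this, Real.sqrt_sq (by linarith)]; simp

lemma Kr_mono {σ t c : ℝ} (hc : |c| ≤ 1) (h0 : 0 ≤ σ) (h1 : σ ≤ 1) (ht0 : 0 ≤ t) (ht1 : t ≤ 1)
    (hD : 0 < 1 - 2 * t * c + t ^ 2) : σ * Kr (σ ^ 2) t c ≤ Kr 1 t c := by
  have hc1 := (abs_le.1 hc).1
  have hc2 := (abs_le.1 hc).2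
  have key : ∀ z ∈ Set.Icc (0 : ℝ) 1, ∃ d, 0 ≤ d ∧ HasDerivAt (fun z => z * Kr (z ^ 2) t c) d z := by
    intro z hz
    have hz2 : z ^ 2 ≤ 1 := by nlinarith [hz.1, hz.2]
    have hτ0 : 0 ≤ z ^ 2 * t := by positivity
    have hτt : z ^ 2 * t ≤ t := mul_le_of_le_one_left ht0 hz2
    have hDz : 0 < 1 - 2 * (z ^ 2 * t) * c + (z ^ 2 * t) ^ 2 := by
      rcases eq_or_lt_of_le hτt with h | h
      · rw [h]; exact hD
      · exact D_pos hc hτ0 (by linarith)
    have dτ : HasDerivAt (fun z : ℝ => z ^ 2 * t) (2 * z * t) z :=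
      ((hasDerivAt_pow 2 z).mul_const t).congr_deriv (by simp)
    have dD : HasDerivAt (fun z : ℝ => 1 - 2 * (z ^ 2 * t) * c + (z ^ 2 * t) ^ 2)
        (- (2 * (2 * z * t) * c) + 2 * (z ^ 2 * t) * (2 * z * t)) z :=
      ((((dτ.const_mul 2).mul_const c).const_sub 1).add (dτ.fun_pow 2)).congr_deriv (by simp)
    have dq := dD.sqrt hDz.ne'
    have hq := Real.sqrt_pos.2 hDz
    have hqq := Real.mul_self_sqrt hDz.le
    have d1 := (hasDerivAt_id' z).fun_mul (((hasDerivAt_const z (1 : ℝ)).fun_div dq hq.ne').fun_add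
      (((dτ.fun_mul (dτ.const_sub c)).fun_div (dq.fun_pow 3) (pow_pos hq 3).ne').const_mul (1 - t)))
    refine ⟨_, ?_, d1⟩
    generalize √(1 - 2 * (z ^ 2 * t) * c + (z ^ 2 * t) ^ 2) = q at hq hqq
    set τ := z ^ 2 * t with hτ
    set w := τ * (c - τ) with hw
    have hpoly : 0 ≤ q ^ 4 + (1 - t) * w * q ^ 2 + 2 * w * q ^ 2 +
        2 * (1 - t) * ((w - τ ^ 2) * q ^ 2 + 3 * w ^ 2) := by
      have e : q ^ 2 = 1 - τ ^ 2 - 2 * w := by rw [sq, hqq, hw]; ring
      have e4 : q ^ 4 = q ^ 2 * (1 - τ ^ 2 - 2 * w) := by rw [← e]; ring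
      have hw1 : -τ - τ ^ 2 ≤ w := by rw [hw]; nlinarith
      have A : 0 ≤ q ^ 2 * (1 + τ) * (t - τ) := by
        have : 0 ≤ t - τ := by linarith
        positivity
      have B : 0 ≤ (1 - t) * ((1 - τ) ^ 2 * ((1 + τ) * (1 + 2 * τ) + w)) := by
        have : 0 ≤ 1 - t := by linarith
        have : 0 ≤ (1 + τ) * (1 + 2 * τ) + w := by nlinarith
        positivity
      rw [e4]
      rw [e] at A ⊢
      nlinarith
    refine le_of_le_of_eq (div_nonneg hpoly (pow_pos hq 5).le) ?_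
    simp only [hw, hτ]
    field_simp
    ring
  have hm := monotoneOn_of_deriv_nonneg (convex_Icc (0 : ℝ) 1)
    (f := fun z => z * Kr (z ^ 2) t c)
    (fun z hz => (key z hz).choose_spec.2.continuousAt.continuousWithinAt)
    (fun z hz => (key z (interior_subset hz)).choose_spec.2.differentiableAt.differentiableWithinAt)
    (fun z hz => by
      obtain ⟨d, hd, h⟩ := key z (interior_subset hz)
      rwa [h.deriv])
  simpa using hm ⟨h0, h1⟩ ⟨zero_le_one, le_rfl⟩ h1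

end Pool.Agent.Lib.MP_6c3a95_mp
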