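import Pool.Agent.Lib.MP_6c3a95_mp.Fields

/-! The virial vector field and the lower bound for the kinetic term. -/

open MeasureTheory Filter Topology Finset
open scoped ContDiff ENNReal RealInnerProductSpace

noncomputable section

namespace Pool.Agent.Lib.MP_6c3a95_mp

def fA (ε s : ℝ) : ℝ := 1 / (1 + ε ^ 2 * s ^ 2)
def fZ (ε s : ℝ) : ℝ := ε ^ 2 / s ^ 2
def Pm (a z : ℝ) : ℝ := 1 + a + z * (1 / 2 - a)
def Pm' (a z : ℝ) : ℝ := -a - a ^ 2 + 4 * a ^ 3 + z * (-3 / 2 * a + 6 * a ^ 2 - 4 * a ^ 3)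
def Pk (a z : ℝ) : ℝ :=
  a / 2 + 5 / 2 * a ^ 2 - 2 * a ^ 3 + z * (7 / 4 * a - 5 * a ^ 2 + 2 * a ^ 3)
def Qk (a z : ℝ) : ℝ :=
  -3 / 2 * a - 23 / 2 * a ^ 2 + 24 * a ^ 3 - 12 * a ^ 4 +
    z * (-35 / 4 * a + 77 / 2 * a ^ 2 - 38 * a ^ 3 + 12 * a ^ 4)
def fφ (ε s : ℝ) : ℝ := s * fA ε s
def fφ' (ε s : ℝ) : ℝ := 2 * fA ε s ^ 2 - fA ε s
def fm (ε s : ℝ) : ℝ := s * fA ε s * Pm (fA ε s) (fZ ε s)
def fm' (ε s : ℝ) : ℝ := Pm' (fA ε s) (fZ ε s)
def fk (ε s : ℝ) : ℝ := 1 / s * Pk (fA ε s) (fZ ε s)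
def fk' (ε s : ℝ) : ℝ := 1 / s * (1 / s * Qk (fA ε s) (fZ ε s))

lemma fA_pos (ε s : ℝ) : 0 < fA ε s := by unfold fA; positivity

lemma fA_le (ε s : ℝ) : fA ε s ≤ 1 := by
  unfold fA; rw [div_le_one (by positivity)]; nlinarith [sq_nonneg (ε * s)]

lemma fA_eq (ε s : ℝ) : fA ε s * (1 + ε ^ 2 * s ^ 2) = 1 := by
  unfold fA; field_simp

lemma dA (ε : ℝ) {s : ℝ} (hs : 0 < s) :
    HasDerivAt (fA ε) (-2 * fA ε s * (1 - fA ε s) / s) s := by
  have h := (hasDerivAt_const s (1 : ℝ)).fun_div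
    (((hasDerivAt_pow 2 s).const_mul (ε ^ 2)).const_add 1) (by positivity)
  refine HasDerivAt.congr_deriv (f := fA ε) h ?_
  simp only [fA]; field_simp; ring

lemma dZ (ε : ℝ) {s : ℝ} (hs : 0 < s) : HasDerivAt (fZ ε) (-2 * fZ ε s / s) s := by
  have h := (hasDerivAt_const s (ε ^ 2)).fun_div (hasDerivAt_pow 2 s) (by positivity)
  refine HasDerivAt.congr_deriv (f := fZ ε) h ?_
  simp only [fZ]; field_simp; ring

lemma dφ (ε : ℝ) (s : ℝ) (hs : 0 < s) : HasDerivAt (fφ ε) (fφ' ε s) s := by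
  refine HasDerivAt.congr_deriv (f := fφ ε) ((hasDerivAt_id' s).fun_mul (dA ε hs)) ?_
  simp only [fφ']; field_simp; ring

lemma dm_ (ε : ℝ) (s : ℝ) (hs : 0 < s) : HasDerivAt (fm ε) (fm' ε s) s := by
  have a := dA ε hs
  have z := dZ ε hs
  refine HasDerivAt.congr_deriv (f := fm ε) (((hasDerivAt_id' s).fun_mul a).fun_mul
    ((a.const_add 1).fun_add (z.fun_mul (a.const_sub (1 / 2))))) ?_
  simp only [fm', Pm', Pm]; field_simp; ring

lemma dk (ε : ℝ) (s : ℝ) (hs : 0 < s) : HasDerivAt (fk ε) (fk' ε s) s := by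
  have a := dA ε hs
  have z := dZ ε hs
  refine HasDerivAt.congr_deriv (f := fk ε)
    (((hasDerivAt_const s (1 : ℝ)).fun_div (hasDerivAt_id' s) hs.ne').fun_mul
    ((((a.div_const 2).fun_add ((a.fun_pow 2).const_mul (5 / 2))).fun_sub
      ((a.fun_pow 3).const_mul 2)).fun_add (z.fun_mul (((a.const_mul (7 / 4)).fun_sub
        ((a.fun_pow 2).const_mul 5)).fun_add ((a.fun_pow 3).const_mul 2))))) ?_
  simp only [fk', Qk, Pk]; field_simp; push_cast; ring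

section
variable {X : Type*} [NormedAddCommGroup X] [NormedSpace ℝ X] [FiniteDimensional ℝ X]
  [MeasurableSpace X] [BorelSpace X]

lemma norm_bv (a : Fin 3) : ‖bv a‖ = 1 := by simp [bv]

lemma Bd_A (L : X →L[ℝ] E3) (ε : ℝ) : Bd fun x => fA ε (sL ε (L x)) := by
  have := (sL_cont ε).comp L.continuous
  refine ⟨Continuous.div continuous_const (by fun_prop) fun x => by positivity, 1, fun x => ?_⟩
  rw [abs_of_pos (fA_pos _ _)]; exact fA_le _ _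

lemma fZ_le {ε : ℝ} (hε : 0 < ε) (y : E3) : fZ ε (sL ε y) ≤ 1 := by
  have := sL_pos hε y
  unfold fZ; rw [div_le_one (by positivity)]
  exact pow_le_pow_left₀ hε.le (le_sL _ _) 2

lemma Bd_Z (L : X →L[ℝ] E3) {ε : ℝ} (hε : 0 < ε) : Bd fun x => fZ ε (sL ε (L x)) := by
  have := (sL_cont ε).comp L.continuous
  refine ⟨Continuous.div continuous_const (by fun_prop)
    fun x => (pow_pos (sL_pos hε _) 2).ne', 1, fun x => ?_⟩
  rw [abs_of_nonneg (by unfold fZ; positivity)]; exact fZ_le hε _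

lemma Bd_ssA (L : X →L[ℝ] E3) {ε : ℝ} (hε : 0 < ε) :
    Bd fun x => sL ε (L x) * fφ ε (sL ε (L x)) := by
  refine (((Bd_A L ε).mul (Bd.const (-1 / ε ^ 2))).add (Bd.const (1 / ε ^ 2))).congr fun x => ?_
  have := fA_eq ε (sL ε (L x))
  simp only [fφ]
  field_simp
  linear_combination this

lemma Bd_φ (L : X →L[ℝ] E3) {ε : ℝ} (hε : 0 < ε) : Bd fun x => fφ ε (sL ε (L x)) := by
  refine ((Bd_ssA L hε).mul (Bd_inv L hε)).congr fun x => ?_
  have := sL_pos hε (L x)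
  field_simp

end

variable {N : ℕ}

abbrev Cf (N : ℕ) := Fin N → E3

/-- coordinate directions -/
def ed (α : Fin N × Fin 3) : Cf N := Pi.single α.1 (bv α.2)

def pr (i : Fin N) : Cf N →L[ℝ] E3 := ContinuousLinearMap.proj i

@[simp] lemma pr_apply (i : Fin N) (x : Cf N) : pr i x = x i := rfl

lemma ed_apply (α : Fin N × Fin 3) (i : Fin N) : ed α i = if i = α.1 then bv α.2 else 0 := by
  simp [ed, Pi.single_apply]

def vf (ε : ℝ) (α : Fin N × Fin 3) (x : Cf N) : ℝ := fφ ε (sL ε (x α.1)) * ⟪x α.1, bv α.2⟫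

def dvf (ε : ℝ) (α β : Fin N × Fin 3) (x : Cf N) : ℝ :=
  if α.1 = β.1 then fφ' ε (sL ε (x α.1)) * (x α.1 β.2 / sL ε (x α.1)) * x α.1 α.2 +
    fφ ε (sL ε (x α.1)) * (if α.2 = β.2 then 1 else 0) else 0

def mf (ε : ℝ) (x : Cf N) : ℝ := ∑ i, fm ε (sL ε (x i))

def dmf (ε : ℝ) (β : Fin N × Fin 3) (x : Cf N) : ℝ :=
  fm' ε (sL ε (x β.1)) * (x β.1 β.2 / sL ε (x β.1))

def Yf (ε : ℝ) (α : Fin N × Fin 3) (x : Cf N) : ℝ := fk ε (sL ε (x α.1)) * ⟪x α.1, bv α.2⟫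

def dYf (ε : ℝ) (α : Fin N × Fin 3) (x : Cf N) : ℝ :=
  fk' ε (sL ε (x α.1)) * (x α.1 α.2 / sL ε (x α.1)) * x α.1 α.2 + fk ε (sL ε (x α.1))

lemma good_vf {ε : ℝ} (hε : 0 < ε) (α β : Fin N × Fin 3) :
    Good volume (vf ε α) (dvf ε α β) (ed β) := by
  refine (good_vec (μ := volume) (pr α.1) hε (ed β) (bv α.2) (dφ ε) (Bd_φ _ hε) (Bd_ssA _ hε)
    (((Bd_φ (pr α.1) hε).comp2 (Bd_A (pr α.1) ε) (fun p a => p * (2 * a - 1))
      (by fun_prop)).congr fun x => by simp only [fφ, fφ']; ring)).congr fun x => ?_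
  simp only [pr_apply, ed_apply, dvf]
  split_ifs with h h2 <;> simp [inner_bv, bv_apply, norm_bv, *]

lemma Bd_fm {ε : ℝ} (hε : 0 < ε) (i : Fin N) : Bd fun x : Cf N => fm ε (sL ε (pr i x)) :=
  ((Bd_φ (pr i) hε).mul ((Bd_A (pr i) ε).comp2 (Bd_Z (pr i) hε) Pm
    (by unfold Pm; fun_prop))).congr fun _ => rfl

lemma mf_bd {ε : ℝ} (hε : 0 < ε) : MemLp (mf (N := N) ε) ⊤ volume :=
  memLp_finsetSum univ fun i _ => (Bd_fm hε i).memLp

lemma good_mf {ε : ℝ} (hε : 0 < ε) (β : Fin N × Fin 3) :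
    Good volume (mf ε) (dmf ε β) (ed β) := by
  refine (Good.sum univ fun i _ => good_rad (μ := volume) (pr i) hε (ed β) (dm_ ε) (Bd_fm hε i)
    ((Bd_A (pr i) ε).comp2 (Bd_Z (pr i) hε) Pm' (by unfold Pm'; fun_prop))).congr fun x => ?_
  rw [sum_eq_single β.1]
  · simp [ed_apply, inner_bv, dmf]
  · intro i _ hi; simp [ed_apply, hi]
  · simp

lemma good_Yf {ε : ℝ} (hε : 0 < ε) (α : Fin N × Fin 3) :
    Good volume (Yf ε α) (dYf ε α) (ed α) := by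
  have b1 := (Bd_A (pr α.1) ε).comp2 (Bd_Z (pr α.1) hε) Pk (by unfold Pk; fun_prop)
  have b2 := (Bd_A (pr α.1) ε).comp2 (Bd_Z (pr α.1) hε) Qk (by unfold Qk; fun_prop)
  refine (good_vec (μ := volume) (pr α.1) hε (ed α) (bv α.2) (dk ε)
    ((Bd_inv (pr α.1) hε).mul b1) (b1.congr fun x => ?_)
    (((Bd_inv (pr α.1) hε).mul b2).congr fun x => ?_)).congr fun x => ?_
  · have := sL_pos hε (pr α.1 x); simp only [fk]; field_simp
  · have := sL_pos hε (pr α.1 x); simp only [fk']; field_simp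
  · simp [ed_apply, inner_bv, bv_apply, dYf, norm_bv]

lemma fZ_eq {ε : ℝ} (hε : 0 < ε) (y : E3) :
    (y 0 ^ 2 + y 1 ^ 2 + y 2 ^ 2) / sL ε y ^ 2 = 1 - fZ ε (sL ε y) := by
  have := sL_pos hε y
  have h := sL_sq ε y
  rw [norm_sq3] at h
  unfold fZ; field_simp; linarith

lemma div_vf {ε : ℝ} (hε : 0 < ε) (x : Cf N) : ∑ α, dvf ε α α x = 2 * mf ε x := by
  rw [Fintype.sum_prod_type, mf, mul_sum]
  refine sum_congr rfl fun i _ => ?_
  have h := fZ_eq hε (x i)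
  have := sL_pos hε (x i)
  simp only [dvf, if_true, Fin.sum_univ_three, fφ, fφ', fm, Pm]
  have e : fZ ε (sL ε (x i)) = 1 - (x i 0 ^ 2 + x i 1 ^ 2 + x i 2 ^ 2) / sL ε (x i) ^ 2 := by
    linarith
  rw [e]; field_simp; ring

lemma kin_pt {a z s ε n0 n1 n2 g0 g1 g2 u : ℝ} (ha0 : 0 ≤ a) (ha1 : a ≤ 1) (hz0 : 0 ≤ z)
    (hz1 : z ≤ 1) (hs : 0 < s) (hn : n0 ^ 2 + n1 ^ 2 + n2 ^ 2 = 1 - z)
    (h1 : (1 - a) / s ≤ ε) (h2 : z / s ≤ ε * (1 / s) ^ 2) :
    -(110 * ε) * (u ^ 2 + (1 / s * u) ^ 2) ≤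
      s * (2 * a ^ 2 - a) * (n0 * g0 + n1 * g1 + n2 * g2) ^ 2 + s * a * (g0 ^ 2 + g1 ^ 2 + g2 ^ 2) +
      Pm' a z * u * (n0 * g0 + n1 * g1 + n2 * g2) +
      ((1 - z) * Qk a z + 3 * Pk a z) / s * u ^ 2 +
      2 * Pk a z * u * (n0 * g0 + n1 * g1 + n2 * g2) := by
  set t := n0 * g0 + n1 * g1 + n2 * g2 with ht
  set g := g0 ^ 2 + g1 ^ 2 + g2 ^ 2 with hg
  have hg0 : 0 ≤ g := by positivity
  have cs : t ^ 2 ≤ (1 - z) * g := by
    rw [← hn, ht, hg]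
    nlinarith [sq_nonneg (n0 * g1 - n1 * g0), sq_nonneg (n0 * g2 - n2 * g0),
      sq_nonneg (n1 * g2 - n2 * g1)]
  have cs2 : (1 + z) * t ^ 2 ≤ g := by
    nlinarith [mul_le_mul_of_nonneg_left cs (by linarith : 0 ≤ 1 + z), mul_nonneg (sq_nonneg z) hg0]
  set P := 2 * a ^ 2 * (1 - z) + z * a with hP
  have hP0 : 0 ≤ P := by have : 0 ≤ 1 - z := by linarith
                         positivity
  set R := (1 - z) * Qk a z + 3 * Pk a z - P with hR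
  have hRl : -(110 * ((1 - a) + z)) ≤ R := by
    have e : R = (1 - a) * (6 * a ^ 2 * (2 * a - 1)) + z * (-3 * a + 37 * a ^ 2 - 56 * a ^ 3 +
        24 * a ^ 4 + z * (35 / 4 * a - 77 / 2 * a ^ 2 + 38 * a ^ 3 - 12 * a ^ 4)) := by
      simp only [hR, hP, Qk, Pk]; ring
    have a2 : a ^ 2 ≤ 1 := pow_le_one₀ ha0 ha1
    have a3 : a ^ 3 ≤ 1 := pow_le_one₀ ha0 ha1
    have a4 : a ^ 4 ≤ 1 := pow_le_one₀ ha0 ha1
    have p2 : 0 ≤ a ^ 2 := by positivity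
    have p3 : 0 ≤ a ^ 3 := by positivity
    have p4 : 0 ≤ a ^ 4 := by positivity
    have b1 : -110 ≤ 6 * a ^ 2 * (2 * a - 1) := by nlinarith
    have b3 : -51 ≤ z * (35 / 4 * a - 77 / 2 * a ^ 2 + 38 * a ^ 3 - 12 * a ^ 4) := by nlinarith
    have b2 : -110 ≤ -3 * a + 37 * a ^ 2 - 56 * a ^ 3 +
        24 * a ^ 4 + z * (35 / 4 * a - 77 / 2 * a ^ 2 + 38 * a ^ 3 - 12 * a ^ 4) := by linarith
    rw [e]
    nlinarith [mul_le_mul_of_nonneg_left b1 (sub_nonneg.2 ha1), mul_le_mul_of_nonneg_left b2 hz0]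
  have e : s * (2 * a ^ 2 - a) * t ^ 2 + s * a * g + Pm' a z * u * t +
      ((1 - z) * Qk a z + 3 * Pk a z) / s * u ^ 2 + 2 * Pk a z * u * t =
      s * (a * (g - (1 + z) * t ^ 2) + 2 * z * a ^ 2 * t ^ 2) + P / s * (s * t + u) ^ 2 +
        R / s * u ^ 2 := by
    simp only [hR, hP, Pm', Pk]; field_simp; ring
  rw [e]
  have t1 : 0 ≤ s * (a * (g - (1 + z) * t ^ 2) + 2 * z * a ^ 2 * t ^ 2) := by
    have : 0 ≤ g - (1 + z) * t ^ 2 := by linarith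
    positivity
  have t2 : 0 ≤ P / s * (s * t + u) ^ 2 := by positivity
  have t3 : -(110 * (ε + ε * (1 / s) ^ 2)) ≤ R / s := by
    have := div_le_div_of_nonneg_right hRl hs.le
    have e2 : -(110 * ((1 - a) + z)) / s = -(110 * ((1 - a) / s + z / s)) := by ring
    linarith
  nlinarith [mul_le_mul_of_nonneg_right t3 (sq_nonneg u)]

theorem kinetic {ε : ℝ} (hε : 0 < ε) {u : Cf N → ℝ} {G : Fin N × Fin 3 → Cf N → ℝ}
    (hu : MemLp u 2 volume) (hG : ∀ α, MemLp (G α) 2 volume) (hw : ∀ α, WD volume u (G α) (ed α))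
    (hh : ∀ i, MemLp (fun x : Cf N => 1 / ‖x i‖ * u x) 2 volume) :
    -(110 * ε) * ∑ i : Fin N, ((∫ x, u x ^ 2) + ∫ x : Cf N, (1 / ‖x i‖ * u x) ^ 2) ≤
      ∑ α, ∑ β, Tri volume (dvf ε α β) (G α) (G β) + ∑ β, Tri volume (dmf ε β) u (G β) := by
  have h0 := sum_eq_zero (s := univ) fun α _ => ibpW (good_Yf hε α) hu (hG α) (hw α)
  have i1 := ((HI.sum univ fun α _ => HI.sum univ fun β _ =>
    HI.tri (good_vf hε α β).bd' (hG α) (hG β)).add
    (HI.sum univ fun β _ => HI.tri (good_mf hε β).bd' hu (hG β))).add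
    (HI.sum univ fun α _ => (HI.tri (good_Yf hε α).bd' hu hu).add
      ((HI.tri (good_Yf hε α).bd hu (hG α)).const_mul 2))
  have i2 := (HI.sum univ fun i _ => (HI.of hu.integrable_sq).add
    (HI.of (hh i).integrable_sq)).const_mul (-(110 * ε))
  have key := i2.le i1 (by
    filter_upwards [eventually_all.2 fun i => ae_ne (μ := volume) (pr i) (w := ed (i, 0))
      (by simpa [ed_apply] using bv_ne 0)] with x hx
    simp only [Fintype.sum_prod_type, ← sum_add_distrib, mul_sum]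
    refine sum_le_sum fun i _ => ?_
    have e : ∀ a, ∑ j, ∑ b, dvf ε (i, a) (j, b) x * G (i, a) x * G (j, b) x =
        ∑ b, dvf ε (i, a) (i, b) x * G (i, a) x * G (i, b) x := fun a => by
      rw [sum_eq_single i]
      · intro j _ hj; simp [dvf, hj.symm]
      · simp
    simp only [e]
    have hs := sL_pos hε (x i)
    have hn := fZ_eq hε (x i)
    have hx0 : 0 < ‖x i‖ := norm_pos_iff.2 (hx i)
    have k := kin_pt (a := fA ε (sL ε (x i))) (z := fZ ε (sL ε (x i))) (ε := ε)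
      (n0 := x i 0 / sL ε (x i)) (n1 := x i 1 / sL ε (x i)) (n2 := x i 2 / sL ε (x i))
      (g0 := G (i, 0) x) (g1 := G (i, 1) x) (g2 := G (i, 2) x) (u := u x)
      (fA_pos _ _).le (fA_le _ _) (by unfold fZ; positivity) (fZ_le hε _) hs
      (by rw [← hn]; ring)
      (by
        have := fA_eq ε (sL ε (x i))
        have h2 := fA_pos ε (sL ε (x i))
        rw [div_le_iff₀ hs]
        nlinarith [mul_nonneg h2.le (sq_nonneg (ε * sL ε (x i) - 1)), mul_pos hε hs,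
          mul_pos (mul_pos hε hs) (mul_pos (mul_pos hε hs) (mul_pos (mul_pos hε hs) h2)),
          mul_pos (mul_pos hε hs) h2])
      (by
        have := le_sL ε (x i)
        unfold fZ
        rw [div_le_iff₀ hs]
        have e : ε * (1 / sL ε (x i)) ^ 2 * sL ε (x i) = ε * sL ε (x i) / sL ε (x i) ^ 2 := by
          field_simp
        rw [e]
        gcongr
        nlinarith)
    have k2 : (1 / sL ε (x i) * u x) ^ 2 ≤ (1 / ‖x i‖ * u x) ^ 2 := by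
      simp only [mul_pow]
      gcongr
      exact norm_le_sL _ _
    refine le_trans (by nlinarith) (k.trans (le_of_eq ?_))
    rw [← hn]
    simp only [Fin.sum_univ_three, dvf, dmf, dYf, Yf, inner_bv, fφ, fφ', fm', fk, fk', if_true]
    simp
    field_simp
    ring)
  rw [h0, add_zero] at key
  exact key

end Pool.Agent.Lib.MP_6c3a95_mp
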