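import Mathlib

/-! Legendre polynomials: positive definiteness on the sphere of three-space and the generating
function. -/

open MvPolynomial Finset

noncomputable section

namespace Pool.Agent.Lib.MP_6c3a95_mp

abbrev Pol := MvPolynomial (Fin 3) ℝ

/-- factorial of a multi-index -/
def mfac (m : Fin 3 →₀ ℕ) : ℝ := ∏ i, ((m i).factorial : ℝ)

lemma mfac_nonneg (m : Fin 3 →₀ ℕ) : 0 ≤ mfac m := by
  unfold mfac; positivity

lemma mfac_add (m : Fin 3 →₀ ℕ) (i : Fin 3) :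
    mfac (m + Finsupp.single i 1) = mfac m * (m i + 1) := by
  unfold mfac
  fin_cases i <;> simp [Fin.prod_univ_three, Nat.factorial_succ] <;> ring

/-- the Fischer product -/
def Fi : Pol →ₗ[ℝ] Pol →ₗ[ℝ] ℝ :=
  (basisMonomials (Fin 3) ℝ).constr ℝ (fun m => mfac m • lcoeff ℝ m)

lemma Fi_monomial (m : Fin 3 →₀ ℕ) (a : ℝ) (q : Pol) :
    Fi (monomial m a) q = a * (mfac m * coeff m q) := by
  have : (monomial m a : Pol) = a • basisMonomials (Fin 3) ℝ m := by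
    simp [smul_monomial]
  rw [this, map_smul, Fi, Module.Basis.constr_basis]
  simp

lemma Fi_eq (p q : Pol) : Fi p q = ∑ m ∈ p.support, coeff m p * (mfac m * coeff m q) := by
  conv_lhs => rw [p.as_sum]
  rw [map_sum, LinearMap.sum_apply]
  simp [Fi_monomial]

lemma Fi_self (p : Pol) : 0 ≤ Fi p p := by
  rw [Fi_eq]
  refine sum_nonneg fun m _ => ?_
  have := mfac_nonneg m
  nlinarith [mul_nonneg this (mul_self_nonneg (coeff m p))]

lemma Fi_X_mul (i : Fin 3) (p q : Pol) : Fi (X i * p) q = Fi p (pderiv i q) := by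
  induction p using MvPolynomial.induction_on' with
  | add p r hp hr => simp [mul_add, hp, hr]
  | monomial m a =>
    rw [X, monomial_mul, Fi_monomial, Fi_monomial, coeff_pderiv, add_comm, mfac_add]
    ring

lemma Fi_C_mul (a : ℝ) (p q : Pol) : Fi (C a * p) q = a * Fi p q := by
  rw [C_mul', map_smul]; simp

lemma Fi_one (q : Pol) : Fi 1 q = coeff 0 q := by
  have : (1 : Pol) = monomial 0 1 := rfl
  rw [this, Fi_monomial]; simp [mfac]

def Ly (y : Fin 3 → ℝ) : Pol := C (y 0) * X 0 + C (y 1) * X 1 + C (y 2) * X 2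
def Qn : Pol := X 0 * X 0 + X 1 * X 1 + X 2 * X 2
def Dy (y : Fin 3 → ℝ) (p : Pol) : Pol :=
  C (y 0) * pderiv 0 p + C (y 1) * pderiv 1 p + C (y 2) * pderiv 2 p
def Lap (p : Pol) : Pol :=
  pderiv 0 (pderiv 0 p) + pderiv 1 (pderiv 1 p) + pderiv 2 (pderiv 2 p)

lemma Fi_Ly (y : Fin 3 → ℝ) (p q : Pol) : Fi (Ly y * p) q = Fi p (Dy y q) := by
  simp only [Ly, Dy, add_mul, mul_assoc, map_add, LinearMap.add_apply, Fi_C_mul, Fi_X_mul, C_mul',
    map_smul, smul_eq_mul, smul_mul_assoc, LinearMap.smul_apply]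

lemma Fi_Qn (p q : Pol) : Fi (Qn * p) q = Fi p (Lap q) := by
  simp only [Qn, Lap, add_mul, mul_assoc, map_add, LinearMap.add_apply, Fi_X_mul]

lemma pderiv_comm' (i j : Fin 3) (p : Pol) : pderiv i (pderiv j p) = pderiv j (pderiv i p) := by
  ext m
  simp only [coeff_pderiv]
  by_cases h : i = j
  · subst h; rfl
  · have h' : j ≠ i := fun e => h e.symm
    rw [add_right_comm m]
    simp [Finsupp.single_apply, h, h']
    ring

lemma Lap_Dy (y : Fin 3 → ℝ) (p : Pol) : Lap (Dy y p) = Dy y (Lap p) := by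
  simp only [Lap, Dy, map_add, pderiv_C_mul]
  have h : ∀ i j : Fin 3, pderiv i (pderiv i (pderiv j p)) = pderiv j (pderiv i (pderiv i p)) :=
    fun i j => by rw [pderiv_comm' i j p, pderiv_comm' i j]
  rw [h 0 1, h 0 2, h 1 0, h 1 2, h 2 0, h 2 1]
  ring

/-- `l!` times the zonal harmonic of degree `l` with pole `y` -/
def Wz (y : Fin 3 → ℝ) : ℕ → Pol
  | 0 => 1
  | 1 => Ly y
  | (l + 2) => C (2 * (l : ℝ) + 3) * (Ly y * Wz y (l + 1)) - C (((l : ℝ) + 1) ^ 2) * (Qn * Wz y l)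

/-- `l!` times the Legendre polynomial -/
def Wp (c : ℝ) : ℕ → ℝ
  | 0 => 1
  | 1 => c
  | (l + 2) => (2 * (l : ℝ) + 3) * (c * Wp c (l + 1)) - ((l : ℝ) + 1) ^ 2 * Wp c l

def dot (x y : Fin 3 → ℝ) : ℝ := x 0 * y 0 + x 1 * y 1 + x 2 * y 2

lemma Ly_hom (y : Fin 3 → ℝ) : (Ly y).IsHomogeneous 1 :=
  ((isHomogeneous_C_mul_X _ _).add (isHomogeneous_C_mul_X _ _)).add (isHomogeneous_C_mul_X _ _)

lemma Qn_hom : Qn.IsHomogeneous 2 :=
  (((isHomogeneous_X ℝ 0).mul (isHomogeneous_X ℝ 0)).add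
    ((isHomogeneous_X ℝ 1).mul (isHomogeneous_X ℝ 1))).add
    ((isHomogeneous_X ℝ 2).mul (isHomogeneous_X ℝ 2))

lemma Wz_hom (y : Fin 3 → ℝ) : ∀ l, (Wz y l).IsHomogeneous l
  | 0 => isHomogeneous_one _ _
  | 1 => Ly_hom y
  | (l + 2) => by
    have h1 := ((Ly_hom y).mul (Wz_hom y (l + 1))).C_mul (2 * (l : ℝ) + 3)
    have h2 := (Qn_hom.mul (Wz_hom y l)).C_mul (((l : ℝ) + 1) ^ 2)
    rw [show 1 + (l + 1) = l + 2 by ring] at h1
    rw [show 2 + l = l + 2 by ring] at h2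
    exact h1.sub h2

lemma eval_Wz (x y : Fin 3 → ℝ) (hx : dot x x = 1) : ∀ l, eval x (Wz y l) = Wp (dot y x) l
  | 0 => by simp [Wz, Wp]
  | 1 => by simp [Wz, Wp, Ly, dot]
  | (l + 2) => by
    have h1 : eval x (Ly y) = dot y x := by simp [Ly, dot]
    have h2 : eval x Qn = 1 := by rw [← hx]; simp [Qn, dot]
    simp only [Wz, Wp, map_sub, map_mul, eval_C, h1, h2, eval_Wz x y hx (l + 1), eval_Wz x y hx l,
      one_mul]

lemma Dy_mul (y : Fin 3 → ℝ) (p q : Pol) : Dy y (p * q) = Dy y p * q + p * Dy y q := by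
  simp only [Dy, pderiv_mul]; ring

lemma Dy_C_mul (y : Fin 3 → ℝ) (a : ℝ) (p : Pol) : Dy y (C a * p) = C a * Dy y p := by
  simp only [Dy, pderiv_C_mul]; ring

lemma Dy_sub (y : Fin 3 → ℝ) (p q : Pol) : Dy y (p - q) = Dy y p - Dy y q := by
  simp only [Dy, map_sub]; ring

lemma Dy_Ly (y : Fin 3 → ℝ) (hy : dot y y = 1) : Dy y (Ly y) = 1 := by
  have : (C (dot y y) : Pol) = 1 := by rw [hy]; simp
  rw [← this]
  simp [Dy, Ly, dot, pderiv_C_mul, pderiv_X, Pi.single_apply]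

lemma Dy_Qn (y : Fin 3 → ℝ) : Dy y Qn = 2 * Ly y := by
  simp [Dy, Ly, Qn, pderiv_X, Pi.single_apply]; ring

lemma Dy_Wz (y : Fin 3 → ℝ) (hy : dot y y = 1) :
    ∀ l, Dy y (Wz y (l + 1)) = C (((l : ℝ) + 1) ^ 2) * Wz y l
  | 0 => by simp [Wz, Dy_Ly y hy]
  | 1 => by
    have h0 : Dy y 1 = 0 := by simp [Dy]
    simp only [Wz, Dy_sub, Dy_C_mul]
    simp only [Dy_mul, Dy_Ly y hy, Dy_Qn, h0]
    simp only [map_add, map_mul, map_pow, map_natCast, map_ofNat, map_one]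
    push_cast; ring
  | (l + 2) => by
    have e : Wz y (l + 2 + 1) = C (2 * ((l + 1 : ℕ) : ℝ) + 3) * (Ly y * Wz y (l + 1 + 1)) -
        C ((((l + 1 : ℕ) : ℝ) + 1) ^ 2) * (Qn * Wz y (l + 1)) := rfl
    have e2 : Wz y (l + 1 + 1) = C (2 * (l : ℝ) + 3) * (Ly y * Wz y (l + 1)) -
        C (((l : ℝ) + 1) ^ 2) * (Qn * Wz y l) := rfl
    rw [e]
    simp only [Dy_sub, Dy_C_mul]
    simp only [Dy_mul, Dy_Ly y hy, Dy_Qn, Dy_Wz y hy (l + 1), Dy_Wz y hy l]
    simp only [map_add, map_mul, map_pow, map_natCast, map_ofNat, map_one] at e2 ⊢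
    push_cast
    rw [show Wz y (l + 2) = Wz y (l + 1 + 1) from rfl]
    linear_combination (-((l : Pol) + 2) ^ 2) * e2

lemma euler3 {p : Pol} {n : ℕ} (h : p.IsHomogeneous n) :
    X 0 * pderiv 0 p + X 1 * pderiv 1 p + X 2 * pderiv 2 p = (n : Pol) * p := by
  have := h.sum_X_mul_pderiv
  rw [Fin.sum_univ_three, nsmul_eq_mul] at this
  exact this

lemma Lap_Ly_mul (y : Fin 3 → ℝ) (p : Pol) : Lap (Ly y * p) = Ly y * Lap p + 2 * Dy y p := by
  simp [Lap, Ly, Dy, pderiv_X, Pi.single_apply]; ring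

lemma Lap_Qn_mul {p : Pol} {n : ℕ} (h : p.IsHomogeneous n) :
    Lap (Qn * p) = Qn * Lap p + (4 * (n : Pol) + 6) * p := by
  have := euler3 h
  simp [Lap, Qn, pderiv_X, Pi.single_apply]
  linear_combination 4 * this

lemma Lap_Wz (y : Fin 3 → ℝ) (hy : dot y y = 1) : ∀ l, Lap (Wz y l) = 0
  | 0 => by simp [Wz, Lap]
  | 1 => by simp [Wz, Lap, Ly, pderiv_X, Pi.single_apply]
  | (l + 2) => by
    have e : Lap (Wz y (l + 2)) = C (2 * (l : ℝ) + 3) * Lap (Ly y * Wz y (l + 1)) -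
        C (((l : ℝ) + 1) ^ 2) * Lap (Qn * Wz y l) := by
      simp only [Wz, Lap, map_sub, pderiv_C_mul]; ring
    rw [e, Lap_Ly_mul, Lap_Qn_mul (Wz_hom y l), Lap_Wz y hy (l + 1), Lap_Wz y hy l, Dy_Wz y hy l]
    simp only [map_add, map_mul, map_pow, map_natCast, map_ofNat, map_one]
    ring

/-- the constants in the reproducing formula -/
def cz : ℕ → ℝ
  | 0 => 1
  | (l + 1) => (2 * (l : ℝ) + 1) * ((l : ℝ) + 1) * cz l

lemma cz_pos : ∀ l, 0 < cz l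
  | 0 => one_pos
  | (l + 1) => by have := cz_pos l; unfold cz; positivity

lemma Dy_hom (y : Fin 3 → ℝ) {p : Pol} {n : ℕ} (h : p.IsHomogeneous (n + 1)) :
    (Dy y p).IsHomogeneous n :=
  (((h.pderiv (i := 0)).C_mul _).add ((h.pderiv (i := 1)).C_mul _)).add
    ((h.pderiv (i := 2)).C_mul _)

lemma eval_Dy (y : Fin 3 → ℝ) {p : Pol} {n : ℕ} (h : p.IsHomogeneous n) :
    eval y (Dy y p) = n * eval y p := by
  have := congrArg (eval y) (euler3 h)
  simpa [Dy] using this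

lemma Fi_Wz (y : Fin 3 → ℝ) : ∀ (l : ℕ) (h : Pol), h.IsHomogeneous l → Lap h = 0 →
    Fi (Wz y l) h = cz l * eval y h
  | 0 => fun h hh _ => by
    rw [← totalDegree_zero_iff_isHomogeneous, totalDegree_eq_zero_iff_eq_C] at hh
    rw [hh]
    simp [Wz, Fi_one, cz]
  | 1 => fun h hh hl => by
    have h0 := Fi_Wz y 0 (Dy y h) (Dy_hom y hh) (by rw [Lap_Dy, hl]; simp [Dy])
    have : Wz y 1 = Ly y * Wz y 0 := by simp [Wz]
    rw [this, Fi_Ly, h0, eval_Dy y hh]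
    simp [cz]
  | (l + 2) => fun h hh hl => by
    have h0 := Fi_Wz y (l + 1) (Dy y h) (Dy_hom y hh) (by rw [Lap_Dy, hl]; simp [Dy])
    simp only [Wz, map_sub, LinearMap.sub_apply, Fi_C_mul, Fi_Ly, Fi_Qn, hl, map_zero, h0,
      eval_Dy y hh]
    rw [show cz (l + 2) = (2 * ((l + 1 : ℕ) : ℝ) + 1) * (((l + 1 : ℕ) : ℝ) + 1) * cz (l + 1) from rfl]
    push_cast; ring

/-- positive definiteness of the Legendre polynomials on the sphere -/
theorem Wp_pd {ι : Type*} (s : Finset ι) (y : ι → Fin 3 → ℝ) (hy : ∀ i, dot (y i) (y i) = 1)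
    (w : ι → ℝ) (l : ℕ) : 0 ≤ ∑ i ∈ s, ∑ j ∈ s, w i * w j * Wp (dot (y j) (y i)) l := by
  have h := Fi_self (∑ i ∈ s, w i • Wz (y i) l)
  simp only [map_sum, map_smul, LinearMap.sum_apply, LinearMap.smul_apply, smul_eq_mul] at h
  have e : ∀ i j, Fi (Wz (y i) l) (Wz (y j) l) = cz l * Wp (dot (y j) (y i)) l := fun i j => by
    rw [Fi_Wz _ _ _ (Wz_hom _ _) (Lap_Wz _ (hy j) _), eval_Wz _ _ (hy i)]
  simp only [e] at h
  have hc := cz_pos l
  have : ∑ j ∈ s, w j * ∑ i ∈ s, w i * (cz l * Wp (dot (y j) (y i)) l) =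
      cz l * ∑ i ∈ s, ∑ j ∈ s, w i * w j * Wp (dot (y j) (y i)) l := by
    rw [sum_comm]
    simp only [mul_sum]
    refine sum_congr rfl fun j _ => sum_congr rfl fun i _ => by ring
  rw [this] at h
  exact (mul_nonneg_iff_of_pos_left hc).1 h

end Pool.Agent.Lib.MP_6c3a95_mp
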