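import Pool.Agent.Lib.MP_6c3a95_mp.Kin

/-! The potential terms of the virial identity. -/

open MeasureTheory Filter Topology Finset
open scoped ContDiff ENNReal RealInnerProductSpace

noncomputable section

namespace Pool.Agent.Lib.MP_6c3a95_mp

variable {N : ℕ}

/-- the virial functional -/
def Lam (ε : ℝ) (u : Cf N → ℝ) (G : Fin N × Fin 3 → Cf N → ℝ) (F : Cf N → ℝ) : ℝ :=
  ∑ α, Tri volume (vf ε α) (G α) F + Tri volume (mf ε) u F

/-- the virial vector field -/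
def vv (ε : ℝ) (y : E3) : E3 := fφ ε (sL ε y) • y

lemma sum_vf (ε : ℝ) (x : Cf N) : ∑ α, vf ε α x • ed α = fun i => vv ε (x i) := by
  ext i a
  rw [Fintype.sum_prod_type, Finset.sum_apply, sum_eq_single i]
  · simp only [Finset.sum_apply, Pi.smul_apply, ed_apply, if_true, Fin.sum_univ_three, vf, vv,
      inner_bv]
    fin_cases a <;> simp [bv_apply]
  · intro j _ hj
    simp [Finset.sum_apply, ed_apply, hj.symm]
  · simp

lemma sum_vf_inner (ε : ℝ) (L : Cf N →L[ℝ] E3) (x : Cf N) :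
    ∑ α, vf ε α x * ⟪L x, L (ed α)⟫ = ⟪L x, L fun i => vv ε (x i)⟫ := by
  rw [← sum_vf, map_sum, inner_sum]
  simp only [map_smul, real_inner_smul_right]

section
variable {ε : ℝ} (hε : 0 < ε) {u : Cf N → ℝ} {G : Fin N × Fin 3 → Cf N → ℝ}
  (hu : MemLp u 2 volume) (hG : ∀ α, MemLp (G α) 2 volume) (hw : ∀ α, WD volume u (G α) (ed α))

include hε hu hG in
lemma Lam_HI {F : Cf N → ℝ} (hF : MemLp F 2 volume) :
    HI volume (fun x => ∑ α, vf ε α x * G α x * F x + mf ε x * u x * F x) (Lam ε u G F) :=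
  (HI.sum univ fun α _ => HI.tri (good_vf hε α α).bd (hG α) hF).add (HI.tri (mf_bd hε) hu hF)

include hε in
lemma Lam_cv (hu : MemLp u 2 volume) (hG : ∀ α, MemLp (G α) 2 volume) {F : ℕ → Cf N → ℝ}
    {F0 : Cf N → ℝ} (h : Cv volume F F0) :
    Tendsto (fun n => Lam ε u G (F n)) atTop (𝓝 (Lam ε u G F0)) :=
  (tendsto_finsetSum univ fun α _ => (Cv.const (hG α)).tri h (good_vf hε α α).bd).add
    ((Cv.const hu).tri h (mf_bd hε))

include hε hu hG hw in
lemma Lam_good {c : Cf N → ℝ} {dc : Fin N × Fin 3 → Cf N → ℝ} (hc0 : MemLp c ⊤ volume)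
    (hc : ∀ α, Good volume c (dc α) (ed α)) :
    HI volume (fun x => -(1 / 2) * ((∑ α, vf ε α x * dc α x) * u x * u x))
      (Lam ε u G fun x => c x * u x) := by
  have g := fun α => (good_vf hε α α).mul (hc α)
  have h0 := sum_eq_zero (s := univ) fun α _ => ibpW (g α) hu (hG α) (hw α)
  have i1 := HI.sum univ fun α _ => (HI.tri (g α).bd' hu hu).add
      ((HI.tri (g α).bd hu (hG α)).const_mul 2)
  have i2 := Lam_HI hε hu hG (hu.mul' (r := 2) hc0)
  have i3 := (HI.tri (memLp_finsetSum univ fun α _ =>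
    (hc α).bd'.mul' (r := ⊤) (good_vf hε α α).bd) hu hu).const_mul (-(1 / 2))
  have e := (i3.add (i1.const_mul (1 / 2))).eq_of i2 fun x => by
    have hd := div_vf hε x
    simp only [add_mul, sum_add_distrib, ← sum_mul, ← mul_sum, hd]
    have : ∑ α, vf ε α x * c x * u x * G α x = (∑ α, vf ε α x * G α x) * (c x * u x) := by
      rw [sum_mul]; exact sum_congr rfl fun α _ => by ring
    rw [this]; ring
  rw [h0, mul_zero, add_zero] at e
  exact e ▸ i3

include hε hu hG hw in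
lemma Lam_self : Lam ε u G u = 0 := by
  have h := (Lam_good hε hu hG hw (c := fun _ => 1) (dc := fun _ _ => 0) (memLp_top_const _)
    fun α => ⟨memLp_top_const _, memLp_top_const _, LD.const _ _⟩).eq
  simpa using h.symm

include hε hu hG hw in
lemma Lam_W (L : Cf N →L[ℝ] E3) {η : ℝ} (hη : 0 < η) :
    HI volume (fun x => 1 / 2 * (⟪L x, L fun i => vv ε (x i)⟫ / sL η (L x) ^ 3 * u x ^ 2))
      (Lam ε u G fun x => 1 / sL η (L x) * u x) := by
  have h := Lam_good hε hu hG hw (Bd_inv L hη).memLp fun α => good_W L hη (ed α)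
  have e : (fun x => 1 / 2 * (⟪L x, L fun i => vv ε (x i)⟫ / sL η (L x) ^ 3 * u x ^ 2)) =
      fun x => -(1 / 2) * ((∑ α, vf ε α x * -(⟪L x, L (ed α)⟫ / sL η (L x) ^ 3)) * u x * u x) := by
    ext x
    rw [← sum_vf_inner]
    simp only [mul_neg, sum_neg_distrib, ← mul_div_assoc, ← sum_div]
    ring
  rw [e]; exact h

include hu hG hw in
lemma cv_nuc (i : Fin N) : Cv volume (fun n x => 1 / sL (eta n) (pr i x) * u x)
    (fun x => 1 / ‖pr i x‖ * u x) :=
  hardy (pr i) (fun a => ed (i, a)) (fun a => by simp [ed_apply]) hu (fun a => hG (i, a))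
    (fun a => hw (i, a))

include hu hG hw in
lemma cv_pair {i j : Fin N} (hij : j ≠ i) :
    Cv volume (fun n x => 1 / sL (eta n) ((pr i - pr j) x) * u x)
    (fun x => 1 / ‖(pr i - pr j) x‖ * u x) :=
  hardy (pr i - pr j) (fun a => ed (i, a)) (fun a => by simp [ed_apply, hij]) hu
    (fun a => hG (i, a)) (fun a => hw (i, a))

lemma ae_nz : ∀ᵐ x : Cf N, ∀ i, x i ≠ 0 :=
  eventually_all.2 fun i => ae_ne (μ := volume) (pr i) (w := ed (i, 0))
    (by simpa [ed_apply] using bv_ne 0)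

lemma ae_inj : ∀ᵐ x : Cf N, Function.Injective x := by
  have : ∀ᵐ x : Cf N, ∀ i j, j ≠ i → (pr i - pr j) x ≠ 0 :=
    eventually_all.2 fun i => eventually_all.2 fun j => eventually_all.2 fun hij =>
      ae_ne (μ := volume) (pr i - pr j) (w := ed (i, 0))
        (by simpa [ed_apply, hij] using bv_ne 0)
  filter_upwards [this] with x hx i j hij
  by_contra h
  exact hx i j (Ne.symm h) (by simp [hij])

include hε hu hG hw in
lemma Lam_nuc (i : Fin N) : Lam ε u G (fun x => 1 / ‖x i‖ * u x) ≤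
    1 / 2 * ((∫ x, u x ^ 2) + ε * ((∫ x, u x ^ 2) + ∫ x : Cf N, (1 / ‖x i‖ * u x) ^ 2)) := by
  have hc := cv_nuc hu hG hw i
  refine le_of_tendsto' (Lam_cv hε hu hG hc) fun n => ?_
  have i0 := HI.of hu.integrable_sq
  refine (Lam_W hε hu hG hw (pr i) (eta_pos n)).le
    ((i0.add ((i0.add (HI.of hc.lim.integrable_sq)).const_mul ε)).const_mul (1 / 2)) ?_
  filter_upwards [ae_nz] with x hx
  have hr : 0 < ‖x i‖ := norm_pos_iff.2 (hx i)
  simp only [pr_apply, vv, real_inner_smul_right, real_inner_self_eq_norm_sq]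
  have h1 : fφ ε (sL ε (x i)) ≤ ‖x i‖ + ε :=
    (mul_le_of_le_one_right (sL_pos hε _).le (fA_le _ _)).trans (sL_le hε.le _)
  have h2 : fφ ε (sL ε (x i)) * ‖x i‖ ^ 2 / sL (eta n) (x i) ^ 3 ≤
      (‖x i‖ + ε) * ‖x i‖ ^ 2 / ‖x i‖ ^ 3 := by
    gcongr
    exact norm_le_sL _ _
  have h3 : (‖x i‖ + ε) * ‖x i‖ ^ 2 / ‖x i‖ ^ 3 = 1 + ε * (1 / ‖x i‖) := by field_simp
  have h4 : 1 / ‖x i‖ ≤ 1 + (1 / ‖x i‖) ^ 2 := by nlinarith [sq_nonneg (1 / ‖x i‖ - 1)]
  have h5 := mul_le_mul_of_nonneg_right (h2.trans (h3.le.trans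
    (add_le_add_right (mul_le_mul_of_nonneg_left h4 hε.le) 1))) (sq_nonneg (u x))
  rw [mul_pow]
  linarith

end

/-- the regularised pair kernel -/
def Kq (ε η : ℝ) (x y : E3) : ℝ := ⟪x - y, vv ε x - vv ε y⟫ / sL η (x - y) ^ 3

lemma sL_zero (y : E3) : sL 0 y = ‖y‖ := by simp [sL]

lemma Kq_zero (x y : E3) : Kq 0 0 x y = Kv x y := by
  simp [Kq, Kv, vv, fφ, fA, sL_zero, real_inner_comm]

lemma vv_cont (ε : ℝ) : Continuous (vv ε) := by
  have := sL_cont ε
  unfold vv fφ fA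
  refine Continuous.smul (this.mul (Continuous.div continuous_const (by fun_prop)
    fun x => by positivity)) continuous_id

lemma Kq_meas (ε η : ℝ) (i j : Fin N) : Measurable fun x : Cf N => Kq ε η (x i) (x j) := by
  have := sL_cont η
  have := vv_cont ε
  exact Measurable.div (Continuous.measurable (by fun_prop)) (Continuous.measurable (by fun_prop))

lemma rad_mono {ε : ℝ} (hε : 0 < ε) {x y : E3} (h : ‖x‖ ≤ ‖y‖) :
    fφ ε (sL ε x) * ‖x‖ ≤ fφ ε (sL ε y) * ‖y‖ := by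
  have hs := sL_pos hε x
  have ht := sL_pos hε y
  have hs2 := sL_sq ε x
  have ht2 := sL_sq ε y
  have h2 : ‖x‖ ^ 2 ≤ ‖y‖ ^ 2 := pow_le_pow_left₀ (norm_nonneg _) h 2
  have a1 : ‖x‖ / sL ε x ≤ ‖y‖ / sL ε y := by
    rw [div_le_div_iff₀ hs ht]
    refine abs_le_of_sq_le_sq' ?_ (by positivity) |>.2
    rw [mul_pow, mul_pow, hs2, ht2]
    nlinarith [mul_le_mul_of_nonneg_right h2 (sq_nonneg ε)]
  have a2 : sL ε x ^ 2 / (1 + ε ^ 2 * sL ε x ^ 2) ≤ sL ε y ^ 2 / (1 + ε ^ 2 * sL ε y ^ 2) := by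
    rw [div_le_div_iff₀ (by positivity) (by positivity)]
    nlinarith
  have e : ∀ z : E3, fφ ε (sL ε z) * ‖z‖ =
      ‖z‖ / sL ε z * (sL ε z ^ 2 / (1 + ε ^ 2 * sL ε z ^ 2)) := fun z => by
    have := sL_pos hε z
    simp only [fφ, fA]; field_simp
  rw [e, e]
  exact mul_le_mul a1 a2 (by positivity) (by positivity)

lemma Kq_nonneg {ε : ℝ} (hε : 0 < ε) (η : ℝ) (x y : E3) : 0 ≤ Kq ε η x y := by
  refine div_nonneg ?_ (pow_nonneg (Real.sqrt_nonneg _) 3)
  have ha : 0 ≤ fφ ε (sL ε x) := (mul_pos (sL_pos hε _) (fA_pos _ _)).le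
  have hb : 0 ≤ fφ ε (sL ε y) := (mul_pos (sL_pos hε _) (fA_pos _ _)).le
  have hc := real_inner_le_norm x y
  simp only [vv, inner_sub_left, inner_sub_right, real_inner_smul_right,
    real_inner_self_eq_norm_sq, real_inner_comm x y]
  have key : 0 ≤ (fφ ε (sL ε x) * ‖x‖ - fφ ε (sL ε y) * ‖y‖) * (‖x‖ - ‖y‖) := by
    rcases le_total ‖x‖ ‖y‖ with h | h
    · exact mul_nonneg_of_nonpos_of_nonpos (sub_nonpos.2 (rad_mono hε h)) (sub_nonpos.2 h)
    · exact mul_nonneg (sub_nonneg.2 (rad_mono hε h)) (sub_nonneg.2 h)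
  nlinarith [mul_le_mul_of_nonneg_left hc (add_nonneg ha hb)]

lemma Kq_eta {η : ℕ → ℝ} (h : Tendsto η atTop (𝓝 0)) (ε : ℝ) {x y : E3} (hxy : x ≠ y) :
    Tendsto (fun n => Kq ε (η n) x y) atTop (𝓝 (Kq ε 0 x y)) := by
  unfold Kq
  rw [sL_zero]
  exact tendsto_const_nhds.div ((sL_tendsto h _).pow 3)
    (pow_ne_zero _ (norm_ne_zero_iff.2 (sub_ne_zero.2 hxy)))

lemma vv_tendsto {η : ℕ → ℝ} (h : Tendsto η atTop (𝓝 0)) (y : E3) :
    Tendsto (fun n => vv (η n) y) atTop (𝓝 (vv 0 y)) := by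
  have h1 := sL_tendsto h y
  have h2 := (h1.mul ((tendsto_const_nhds (x := (1 : ℝ))).div
    (((h.pow 2).mul (h1.pow 2)).const_add 1) (by simp))).smul_const y
  simpa only [vv, fφ, fA, sL_zero, Pi.div_apply] using h2

lemma Kq_eps {η : ℕ → ℝ} (h : Tendsto η atTop (𝓝 0)) (x y : E3) :
    Tendsto (fun n => Kq (η n) 0 x y) atTop (𝓝 (Kv x y)) := by
  rw [← Kq_zero]
  exact (tendsto_const_nhds.inner ((vv_tendsto h x).sub (vv_tendsto h y))).div_const _

lemma min_int {X : Type*} [MeasurableSpace X] {μ : Measure X} {f u : X → ℝ} {M : ℝ} (hM : 0 ≤ M)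
    (hf : Measurable f) (h0 : ∀ᵐ x ∂μ, 0 ≤ f x) (hu : MemLp u 2 μ) :
    Integrable (fun x => min (f x) M * u x ^ 2) μ := by
  refine (hu.integrable_sq.const_mul M).mono'
    ((hf.min measurable_const).aestronglyMeasurable.mul hu.integrable_sq.1) ?_
  filter_upwards [h0] with x hx
  rw [Real.norm_of_nonneg (mul_nonneg (le_min hx hM) (sq_nonneg _))]
  exact mul_le_mul_of_nonneg_right (min_le_right _ _) (sq_nonneg _)

lemma min_tendsto {X : Type*} [MeasurableSpace X] {μ : Measure X} {f : ℕ → X → ℝ} {g u : X → ℝ}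
    {M : ℝ} (hM : 0 ≤ M) (hf : ∀ n, Measurable (f n)) (h0 : ∀ n x, 0 ≤ f n x) (hu : MemLp u 2 μ)
    (ht : ∀ᵐ x ∂μ, Tendsto (fun n => f n x) atTop (𝓝 (g x))) :
    Tendsto (fun n => ∫ x, min (f n x) M * u x ^ 2 ∂μ) atTop
      (𝓝 (∫ x, min (g x) M * u x ^ 2 ∂μ)) := by
  refine tendsto_integral_of_dominated_convergence (fun x => M * u x ^ 2)
    (fun n => (min_int hM (hf n) (Eventually.of_forall (h0 n)) hu).1)
    (hu.integrable_sq.const_mul M) (fun n => Eventually.of_forall fun x => ?_) ?_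
  · rw [Real.norm_of_nonneg (mul_nonneg (le_min (h0 n x) hM) (sq_nonneg _))]
    exact mul_le_mul_of_nonneg_right (min_le_right _ _) (sq_nonneg _)
  · filter_upwards [ht] with x hx
    exact (hx.min tendsto_const_nhds).mul_const _

lemma Lam_pair {ε : ℝ} (hε : 0 < ε) {u : Cf N → ℝ} {G : Fin N × Fin 3 → Cf N → ℝ}
    (hu : MemLp u 2 volume) (hG : ∀ α, MemLp (G α) 2 volume)
    (hw : ∀ α, WD volume u (G α) (ed α)) {i j : Fin N} (hij : j ≠ i) {M : ℝ} (hM : 0 ≤ M) :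
    1 / 2 * ∫ x : Cf N, min (Kq ε 0 (x i) (x j)) M * u x ^ 2 ≤
      Lam ε u G (fun x => 1 / ‖x i - x j‖ * u x) := by
  have hc := cv_pair hu hG hw hij
  have ht := (min_tendsto hM (fun n => Kq_meas ε (eta n) i j) (fun n x => Kq_nonneg hε _ _ _) hu
    (g := fun x : Cf N => Kq ε 0 (x i) (x j)) (by
      filter_upwards [ae_inj] with x hx
      exact Kq_eta eta_tendsto ε fun h => hij (hx h).symm)).const_mul (1 / 2)
  refine le_of_tendsto_of_tendsto' ht (Lam_cv hε hu hG hc) fun n => ?_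
  refine ((HI.of (min_int hM (Kq_meas ε (eta n) i j)
    (Eventually.of_forall fun x => Kq_nonneg hε _ _ _) hu)).const_mul (1 / 2)).le
    (Lam_W hε hu hG hw (pr i - pr j) (eta_pos n)) (Eventually.of_forall fun x => ?_)
  exact mul_le_mul_of_nonneg_left (mul_le_mul_of_nonneg_right (min_le_left _ _) (sq_nonneg _))
    (by norm_num)

end Pool.Agent.Lib.MP_6c3a95_mp
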