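import Pool.Agent.Lib.MP_6c3a95_mp.Moll

/-! Weak derivatives, integration by parts and the virial identity for weak solutions. -/

open MeasureTheory Filter Topology Finset
open scoped ContDiff ENNReal

noncomputable section

namespace Pool.Agent.Lib.MP_6c3a95_mp

variable {X : Type*} [NormedAddCommGroup X] [NormedSpace ℝ X] [FiniteDimensional ℝ X]
  [MeasurableSpace X] [BorelSpace X] {μ : Measure X} [μ.IsAddHaarMeasure]

lemma LD.mul {f f' g g' : X → ℝ} {w : X} (hf : LD f f' w) (hg : LD g g' w) :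
    LD (fun x => f x * g x) (fun x => f' x * g x + f x * g' x) w := fun x => by
  simpa using (hf x).fun_mul (hg x)

lemma LD.add {f f' g g' : X → ℝ} {w : X} (hf : LD f f' w) (hg : LD g g' w) :
    LD (fun x => f x + g x) (fun x => f' x + g' x) w := fun x => (hf x).fun_add (hg x)

lemma LD.congr {f f' g' : X → ℝ} {w : X} (hf : LD f f' w) (h : ∀ x, f' x = g' x) :
    LD f g' w := fun x => h x ▸ hf x

lemma LD.const (c : ℝ) (w : X) : LD (fun _ => c) (fun _ => 0) w := fun _ => hasDerivAt_const _ _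

lemma LD.sum {ι : Type*} (s : Finset ι) {f f' : ι → X → ℝ} {w : X}
    (h : ∀ i ∈ s, LD (f i) (f' i) w) :
    LD (fun x => ∑ i ∈ s, f i x) (fun x => ∑ i ∈ s, f' i x) w := fun x =>
  HasDerivAt.fun_sum fun i hi => h i hi x

lemma LD.comp {f f' : X → ℝ} {w : X} (hf : LD f f' w) {F F' : ℝ → ℝ}
    (hF : ∀ x, HasDerivAt F (F' (f x)) (f x)) :
    LD (fun x => F (f x)) (fun x => F' (f x) * f' x) w := fun x => by
  have h : HasDerivAt F (F' (f x)) (f (x + (0 : ℝ) • w)) := by simpa using hF x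
  exact h.comp (0 : ℝ) (hf x)

/-- bounded coefficient with bounded derivative along a line -/
structure Good (μ : Measure X) (c c' : X → ℝ) (w : X) : Prop where
  bd : MemLp c ⊤ μ
  bd' : MemLp c' ⊤ μ
  ld : LD c c' w

lemma Good.mul {f f' g g' : X → ℝ} {w : X} (hf : Good μ f f' w) (hg : Good μ g g' w) :
    Good μ (fun x => f x * g x) (fun x => f' x * g x + f x * g' x) w :=
  ⟨hg.bd.mul' hf.bd, (hg.bd.mul' hf.bd').add (hg.bd'.mul' hf.bd), hf.ld.mul hg.ld⟩

lemma Good.add {f f' g g' : X → ℝ} {w : X} (hf : Good μ f f' w) (hg : Good μ g g' w) :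
    Good μ (fun x => f x + g x) (fun x => f' x + g' x) w :=
  ⟨hf.bd.add hg.bd, hf.bd'.add hg.bd', hf.ld.add hg.ld⟩

lemma Good.const_mul {f f' : X → ℝ} {w : X} (hf : Good μ f f' w) (a : ℝ) :
    Good μ (fun x => a * f x) (fun x => a * f' x) w :=
  ⟨hf.bd.const_mul a, hf.bd'.const_mul a, fun x => (hf.ld x).const_mul a⟩

lemma Good.sum {ι : Type*} (s : Finset ι) {f f' : ι → X → ℝ} {w : X}
    (h : ∀ i ∈ s, Good μ (f i) (f' i) w) :
    Good μ (fun x => ∑ i ∈ s, f i x) (fun x => ∑ i ∈ s, f' i x) w :=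
  ⟨memLp_finsetSum s fun i hi => (h i hi).bd, memLp_finsetSum s fun i hi => (h i hi).bd',
    LD.sum s fun i hi => (h i hi).ld⟩

lemma Good.congr {f f' g' : X → ℝ} {w : X} (hf : Good μ f f' w) (h : ∀ x, f' x = g' x) :
    Good μ f g' w := by
  rwa [← funext h]

lemma ibp3 {c c' a a' b b' : X → ℝ} {w : X} (hc : Good μ c c' w)
    (ha : MemLp a 2 μ) (ha' : MemLp a' 2 μ) (hb : MemLp b 2 μ) (hb' : MemLp b' 2 μ)
    (la : LD a a' w) (lb : LD b b' w) :
    Tri μ c' a b + Tri μ c a' b + Tri μ c a b' = 0 := by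
  have i1 := Tri_int hc.bd' ha hb
  have i2 := Tri_int hc.bd ha' hb
  have h := integral_bilinear_hasLineDerivAt_right_eq_neg_left_of_integrable (μ := μ)
    (f := fun x => c x * a x) (f' := fun x => c' x * a x + c x * a' x) (g := b) (g' := b')
    (v := w) (B := ContinuousLinearMap.mul ℝ ℝ)
    (by simp only [ContinuousLinearMap.mul_apply', add_mul]; exact i1.add i2) (Tri_int hc.bd ha hb') (Tri_int hc.bd ha hb)
    (fun x _ => hc.ld.mul la x) (fun x _ => lb x)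
  simp only [ContinuousLinearMap.mul_apply', add_mul] at h
  rw [integral_add i1 i2] at h
  unfold Tri
  linarith

/-- weak derivative in a direction -/
def WD (μ : Measure X) (u g : X → ℝ) (w : X) : Prop :=
  ∀ φ : X → ℝ, Test φ → ∫ x, u x * fderiv ℝ φ x w ∂μ = -∫ x, g x * φ x ∂μ

lemma WD.mol {u g ρ : X → ℝ} {w : X} (h : WD μ u g w) (hρ : Test ρ) :
    mol μ u (dd ρ w) = mol μ g ρ := by
  ext z
  have := h _ (hρ.refl z)
  simp only [hρ.dd_refl, mul_neg, integral_neg, neg_inj] at this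
  exact this

lemma WD.ld {u g ρ : X → ℝ} {w : X} (h : WD μ u g w) (hu : MemLp u 2 μ) (hρ : Test ρ) :
    LD (MP_6c3a95_mp.mol μ u ρ) (MP_6c3a95_mp.mol μ g ρ) w := by
  rw [← h.mol hρ]; exact mol_LD hu hρ w

/-- integration by parts against the square of a weakly differentiable function -/
lemma ibpW {c c' u g : X → ℝ} {w : X} (hc : Good μ c c' w) (hu : MemLp u 2 μ) (hg : MemLp g 2 μ)
    (h : WD μ u g w) : Tri μ c' u u + 2 * Tri μ c u g = 0 := by
  have h1 := mol_cv hu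
  have h2 := mol_cv hg
  have t := ((h1.tri h1 hc.bd').add (h2.tri h1 hc.bd)).add (h1.tri h2 hc.bd)
  have e : ∀ n, Tri μ c' (mol μ u (rho μ n)) (mol μ u (rho μ n)) +
      Tri μ c (mol μ g (rho μ n)) (mol μ u (rho μ n)) +
      Tri μ c (mol μ u (rho μ n)) (mol μ g (rho μ n)) = 0 := fun n =>
    ibp3 hc (h1.mem n) (h2.mem n) (h1.mem n) (h2.mem n) (h.ld hu (rho_test n))
      (h.ld hu (rho_test n))
  simp only [e] at t
  have := tendsto_nhds_unique tendsto_const_nhds t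
  have e2 : Tri μ c g u = Tri μ c u g := by simp only [Tri, mul_right_comm]
  linarith

lemma Tri_comm (c a b : X → ℝ) : Tri μ c a b = Tri μ c b a := by simp only [Tri, mul_right_comm]

lemma Tri_sum3 {ι : Type*} [Fintype ι] {c a : X → ℝ} {b : ι → X → ℝ} (hc : MemLp c ⊤ μ)
    (ha : MemLp a 2 μ) (hb : ∀ i, MemLp (b i) 2 μ) :
    ∑ i, Tri μ c a (b i) = Tri μ c a (fun x => ∑ i, b i x) := by
  simp only [Tri, mul_sum]
  rw [integral_finsetSum _ fun i _ => Tri_int hc ha (hb i)]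

lemma Tri_sum1 {ι : Type*} [Fintype ι] {c : ι → X → ℝ} {a b : X → ℝ} (hc : ∀ i, MemLp (c i) ⊤ μ)
    (ha : MemLp a 2 μ) (hb : MemLp b 2 μ) :
    ∑ i, Tri μ (c i) a b = Tri μ (fun x => ∑ i, c i x) a b := by
  simp only [Tri, sum_mul]
  rw [integral_finsetSum _ fun i _ => Tri_int (hc i) ha hb]

lemma poho_smooth {ι : Type*} [Fintype ι] (e : ι → X) {U F m : X → ℝ} {U1 v dm : ι → X → ℝ}
    {U2 dv : ι → ι → X → ℝ} (hU : MemLp U 2 μ) (hU1 : ∀ i, MemLp (U1 i) 2 μ)
    (hU2 : ∀ i j, MemLp (U2 i j) 2 μ) (l1 : ∀ i, LD U (U1 i) (e i))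
    (l2 : ∀ i j, LD (U1 i) (U2 i j) (e j)) (hs : ∀ i j, U2 i j = U2 j i)
    (hF : ∀ x, ∑ i, U2 i i x = F x) (hv : ∀ i j, Good μ (v i) (dv i j) (e j))
    (hm : ∀ j, Good μ m (dm j) (e j)) (hm0 : MemLp m ⊤ μ) (hdiv : ∀ x, ∑ i, dv i i x = 2 * m x) :
    ∑ i, Tri μ (v i) (U1 i) F + Tri μ m U F + ∑ i, ∑ j, Tri μ (dv i j) (U1 i) (U1 j) +
      ∑ j, Tri μ (dm j) U (U1 j) = 0 := by
  have h1 : ∀ i j, Tri μ (dv i j) (U1 i) (U1 j) + Tri μ (v i) (U2 i j) (U1 j) +
      Tri μ (v i) (U1 i) (U2 j j) = 0 := fun i j =>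
    ibp3 (hv i j) (hU1 i) (hU2 i j) (hU1 j) (hU2 j j) (l2 i j) (l2 j j)
  have h2 : ∀ i j, Tri μ (dv i i) (U1 j) (U1 j) + 2 * Tri μ (v i) (U2 i j) (U1 j) = 0 := by
    intro i j
    have := ibp3 (hv i i) (hU1 j) (hU2 j i) (hU1 j) (hU2 j i) (l2 j i) (l2 j i)
    rw [Tri_comm (v i) (U1 j), hs j i] at this
    linarith
  have h3 : ∀ j, Tri μ (dm j) U (U1 j) + Tri μ m (U1 j) (U1 j) + Tri μ m U (U2 j j) = 0 :=
    fun j => ibp3 (hm j) hU (hU1 j) (hU1 j) (hU2 j j) (l1 j) (l2 j j)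
  have s1 := sum_eq_zero (s := univ) fun i _ => sum_eq_zero (s := univ) fun j _ => h1 i j
  have s2 := sum_eq_zero (s := univ) fun i _ => sum_eq_zero (s := univ) fun j _ => h2 i j
  have s3 := sum_eq_zero (s := univ) fun j _ => h3 j
  simp only [sum_add_distrib, ← mul_sum] at s1 s2 s3
  have a1 : ∀ i, ∑ j, Tri μ (v i) (U1 i) (U2 j j) = Tri μ (v i) (U1 i) F := fun i => by
    rw [Tri_sum3 (hv i i).bd (hU1 i) fun j => hU2 j j, funext hF]
  have a2 : ∑ j, Tri μ m U (U2 j j) = Tri μ m U F := by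
    rw [Tri_sum3 hm0 hU fun j => hU2 j j, funext hF]
  have a3 : ∑ i, ∑ j, Tri μ (dv i i) (U1 j) (U1 j) = 2 * ∑ j, Tri μ m (U1 j) (U1 j) := by
    rw [sum_comm, mul_sum]
    refine sum_congr rfl fun j _ => ?_
    rw [Tri_sum1 (fun i => (hv i i).bd') (hU1 j) (hU1 j), funext hdiv]
    simp only [Tri, mul_assoc, integral_const_mul]
  simp only [a1] at s1
  rw [a2] at s3
  rw [a3] at s2
  linarith

/-- the virial identity for weak solutions of the Poisson equation -/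
theorem pohozaev {ι : Type*} [Fintype ι] (e : ι → X) {u F m : X → ℝ} {G v dm : ι → X → ℝ}
    {dv : ι → ι → X → ℝ} (hu : MemLp u 2 μ) (hG : ∀ i, MemLp (G i) 2 μ) (hF : MemLp F 2 μ)
    (hw : ∀ i, WD μ u (G i) (e i))
    (heq : ∀ φ, Test φ → ∑ i, ∫ x, G i x * fderiv ℝ φ x (e i) ∂μ + ∫ x, F x * φ x ∂μ = 0)
    (hv : ∀ i j, Good μ (v i) (dv i j) (e j))
    (hm : ∀ j, Good μ m (dm j) (e j)) (hm0 : MemLp m ⊤ μ) (hdiv : ∀ x, ∑ i, dv i i x = 2 * m x) :
    ∑ i, Tri μ (v i) (G i) F + Tri μ m u F + ∑ i, ∑ j, Tri μ (dv i j) (G i) (G j) +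
      ∑ j, Tri μ (dm j) u (G j) = 0 := by
  have cu := mol_cv hu
  have cG := fun i => mol_cv (hG i)
  have cF := mol_cv hF
  have t := (((tendsto_finsetSum univ fun i _ => (cG i).tri cF (hv i i).bd).add
    (cu.tri cF hm0)).add (tendsto_finsetSum univ fun i _ => tendsto_finsetSum univ fun j _ =>
      (cG i).tri (cG j) (hv i j).bd')).add
    (tendsto_finsetSum univ fun j _ => cu.tri (cG j) (hm j).bd')
  have key : ∀ n, _ := fun n => poho_smooth e (cu.mem n) (fun i => (cG i).mem n)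
    (U2 := fun i j => mol μ (G i) (dd (rho μ n) (e j)))
    (F := mol μ F (rho μ n))
    (fun i j => mol_memLp (hG i) ((rho_test n).dd _)) (fun i => (hw i).ld hu (rho_test n))
    (fun i j => mol_LD (hG i) (rho_test n) _)
    (fun i j => by
      rw [← (hw i).mol ((rho_test n).dd _), ← (hw j).mol ((rho_test n).dd _),
        (rho_test n).dd_comm])
    (fun z => by
      have := heq _ ((rho_test (μ := μ) n).refl z)
      simp only [(rho_test (μ := μ) n).dd_refl, mul_neg, integral_neg, sum_neg_distrib] at this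
      simp only [mol]
      linarith) hv hm hm0 hdiv
  simp only [key] at t
  exact (tendsto_nhds_unique tendsto_const_nhds t).symm

end Pool.Agent.Lib.MP_6c3a95_mp
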